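import Pool.Agent.H94.NP.Facets

namespace Pool.Agent.H94.NP

open Finset Pool.Agent.H12.Ball

section

variable {V : Type*} [Fintype V] [LinearOrder V] {𝕜 : Type*} [Field 𝕜] {Δ W : Set (Finset V)} {a : V}

/-- the contraction -/
private noncomputable def tog (Δ W : Set (Finset V)) (a : V) (c : Finset V → 𝕜) (τ : Finset V) : 𝕜 :=
  open Classical in if τ ∈ W ∧ τ ∉ Δ ∧ a ∈ τ then eps 𝕜 a (τ.erase a) * c (τ.erase a) else 0

private theorem tog_pos {c : Finset V → 𝕜} {τ : Finset V} (h : τ ∈ W ∧ τ ∉ Δ ∧ a ∈ τ) :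
    tog Δ W a c τ = eps 𝕜 a (τ.erase a) * c (τ.erase a) := if_pos h

private theorem tog_neg {c : Finset V → 𝕜} {τ : Finset V} (h : ¬ (τ ∈ W ∧ τ ∉ Δ ∧ a ∈ τ)) :
    tog Δ W a c τ = 0 := if_neg h

private theorem tog_chain {i : ℕ} {c : Finset V → 𝕜} (hc : ∀ σ, c σ ≠ 0 → σ.card = i) :
    IsChain W (i + 1) (tog Δ W a c) := by
  intro τ hτ
  by_cases h : τ ∈ W ∧ τ ∉ Δ ∧ a ∈ τ
  · rw [tog_pos h] at hτ
    have h1 := hc _ (right_ne_zero_of_mul hτ)
    refine ⟨h.1, ?_⟩
    rw [Finset.card_erase_of_mem h.2.2] at h1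
    have h2 : 0 < τ.card := Finset.card_pos.2 ⟨a, h.2.2⟩
    omega
  · exact absurd (tog_neg h) hτ

private theorem bd_chain (hW : Down W) {i : ℕ} {b : Finset V → 𝕜} (hb : IsChain W (i + 1) b) :
    IsChain W i (boundary b) := by
  intro τ hτ
  rw [boundary_eq] at hτ
  obtain ⟨w, hw, hw2⟩ := Finset.exists_ne_zero_of_sum_ne_zero hτ
  rw [Finset.mem_filter] at hw
  obtain ⟨h1, h2⟩ := hb _ (right_ne_zero_of_mul hw2)
  refine ⟨hW _ h1 _ (Finset.subset_insert _ _), ?_⟩
  rw [Finset.card_insert_of_notMem hw.2] at h2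
  omega

private theorem tog_key (hΔ : Down Δ) (h : ∀ σ ∈ W, σ ∉ Δ → insert a σ ∈ W ∧ σ.erase a ∉ Δ)
    {c : Finset V → 𝕜} (hc : ∀ σ, c σ ≠ 0 → σ ∈ W) {σ : Finset V} (hσ : σ ∈ W) (hσΔ : σ ∉ Δ) :
    boundary (tog Δ W a c) σ + tog Δ W a (boundary c) σ = c σ := by
  by_cases ha : a ∈ σ
  · obtain ⟨ρ, hρ⟩ : ∃ ρ, ρ = σ.erase a := ⟨_, rfl⟩
    have haρ : a ∉ ρ := by
      rw [hρ]
      exact Finset.notMem_erase a σ
    have hins : insert a ρ = σ := by
      rw [hρ]
      exact Finset.insert_erase ha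
    have hρΔ : ρ ∉ Δ := by
      rw [hρ]
      exact (h σ hσ hσΔ).2
    rw [tog_pos ⟨hσ, hσΔ, ha⟩, ← hρ, boundary_eq, boundary_eq]
    have hfil : Finset.univ.filter (fun v => v ∉ ρ) = insert a (Finset.univ.filter (fun v => v ∉ σ)) := by
      ext v
      rw [Finset.mem_insert, Finset.mem_filter, Finset.mem_filter, ← hins, Finset.mem_insert]
      constructor
      · rintro ⟨_, h1⟩
        by_cases h2 : v = a
        · exact Or.inl h2
        · exact Or.inr ⟨Finset.mem_univ _, fun h3 => h3.elim h2 h1⟩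
      · rintro (rfl | ⟨_, h1⟩)
        · exact ⟨Finset.mem_univ _, haρ⟩
        · exact ⟨Finset.mem_univ _, fun h3 => h1 (Or.inr h3)⟩
    have hna : a ∉ Finset.univ.filter (fun v => v ∉ σ) := by
      rw [Finset.mem_filter]
      exact fun h1 => h1.2 ha
    rw [hfil, Finset.sum_insert hna, hins, mul_add, Finset.mul_sum, ← mul_assoc, eps_mul_self, one_mul,
      add_left_comm, ← Finset.sum_add_distrib]
    have hz : ∑ v ∈ Finset.univ.filter (fun v => v ∉ σ), (eps 𝕜 v σ * tog Δ W a c (insert v σ) +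
        eps 𝕜 a ρ * (eps 𝕜 v ρ * c (insert v ρ))) = 0 := by
      refine Finset.sum_eq_zero fun v hv => ?_
      rw [Finset.mem_filter] at hv
      have hvσ := hv.2
      have hva : v ≠ a := fun h1 => hvσ (h1 ▸ ha)
      have hvρ : v ∉ ρ := fun h1 => hvσ (by rw [← hins]; exact Finset.mem_insert_of_mem h1)
      have hmem : a ∈ insert v σ := Finset.mem_insert_of_mem ha
      have her : (insert v σ).erase a = insert v ρ := by
        rw [hρ, Finset.erase_insert_of_ne hva]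
      have hnΔ : insert v σ ∉ Δ := fun h1 => hσΔ (hΔ _ h1 _ (Finset.subset_insert _ _))
      by_cases hw : insert v σ ∈ W
      · rw [tog_pos ⟨hw, hnΔ, hmem⟩, her]
        have h1 := eps_swap (𝕜 := 𝕜) haρ hvρ hva.symm
        rw [hins] at h1
        have h2 := eps_mul_self (𝕜 := 𝕜) a ρ
        have h3 := eps_mul_self (𝕜 := 𝕜) a (insert v ρ)
        have h4 : eps 𝕜 v σ = - (eps 𝕜 a ρ * eps 𝕜 v ρ * eps 𝕜 a (insert v ρ)) := by
          calc eps 𝕜 v σ = eps 𝕜 a ρ * eps 𝕜 a ρ * eps 𝕜 v σ := by rw [h2, one_mul]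
            _ = eps 𝕜 a ρ * (eps 𝕜 a ρ * eps 𝕜 v σ) := by ring
            _ = - (eps 𝕜 a ρ * eps 𝕜 v ρ * eps 𝕜 a (insert v ρ)) := by rw [h1]; ring
        rw [h4]
        linear_combination (-(eps 𝕜 a ρ * eps 𝕜 v ρ * c (insert v ρ))) * h3
      · have h1 : c (insert v ρ) = 0 := by
          by_contra h2
          apply hw
          have h3 := hc _ h2
          have h4 : insert v ρ ∉ Δ := fun h5 => hρΔ (hΔ _ h5 _ (Finset.subset_insert _ _))
          have h5 := (h _ h3 h4).1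
          rw [Finset.insert_comm, hins] at h5
          exact h5
        rw [tog_neg fun h2 => hw h2.1, h1]
        ring
    rw [hz, add_zero]
  · have h1 : insert a σ ∈ W := (h σ hσ hσΔ).1
    have h2 : insert a σ ∉ Δ := fun h3 => hσΔ (hΔ _ h3 _ (Finset.subset_insert _ _))
    rw [tog_neg (τ := σ) fun h3 => ha h3.2.2, add_zero, boundary_eq, Finset.sum_eq_single a]
    · rw [tog_pos ⟨h1, h2, Finset.mem_insert_self _ _⟩, Finset.erase_insert ha, ← mul_assoc, eps_mul_self, one_mul]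
    · intro v hv hva
      rw [tog_neg, mul_zero]
      rintro ⟨_, _, h3⟩
      rcases Finset.mem_insert.1 h3 with h4 | h4
      · exact hva h4.symm
      · exact ha h4
    · intro h3
      exact absurd (Finset.mem_filter.2 ⟨Finset.mem_univ a, ha⟩) h3

end

/-- If the faces of `W` outside `Δ` come in pairs `σ, σ ∪ {a}`, then `Δ` and `W` are acyclic
together. -/
theorem acyclic_toggle {V : Type*} [Fintype V] [LinearOrder V] {𝕜 : Type*} [Field 𝕜]
    {Δ W : Set (Finset V)} (hΔ : Down Δ) (hW : Down W) (hsub : Δ ⊆ W) (a : V)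
    (h : ∀ σ ∈ W, σ ∉ Δ → insert a σ ∈ W ∧ σ.erase a ∉ Δ) :
    Acyclic 𝕜 Δ ↔ Acyclic 𝕜 W := by
  constructor
  · intro hA i c hc hcyc
    obtain ⟨e, he⟩ : ∃ e : Finset V → 𝕜, e = tog Δ W a c := ⟨_, rfl⟩
    have hech : IsChain W (i + 1) e := he ▸ tog_chain fun σ hσ => (hc σ hσ).2
    have hbe := bd_chain hW hech
    have htz : ∀ σ, tog Δ W a (boundary c) σ = 0 := by
      intro σ
      by_cases h1 : σ ∈ W ∧ σ ∉ Δ ∧ a ∈ σ
      · rw [tog_pos h1, hcyc, mul_zero]
      · exact tog_neg h1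
    have hc' : IsChain Δ i (fun τ => c τ - boundary e τ) := by
      intro τ hτ
      have h1 : τ ∈ W ∧ τ.card = i := by
        by_cases h2 : c τ = 0
        · have h3 : boundary e τ ≠ 0 := by
            intro h4
            apply hτ
            simp only [h2, h4, sub_zero]
          exact hbe τ h3
        · exact hc τ h2
      refine ⟨?_, h1.2⟩
      by_contra h2
      apply hτ
      have h3 := tog_key hΔ h (fun σ hσ => (hc σ hσ).1) h1.1 h2
      rw [htz, add_zero, ← he] at h3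
      simp only [h3, sub_self]
    obtain ⟨b, hb, hbc⟩ := hA i _ hc' fun τ => by rw [boundary_sub, hcyc, boundary_boundary, sub_zero]
    refine ⟨fun τ => b τ + e τ, ?_, fun τ => ?_⟩
    · intro τ hτ
      by_cases h1 : b τ = 0
      · apply hech
        intro h2
        apply hτ
        simp only [h1, h2, add_zero]
      · exact ⟨hsub (hb τ h1).1, (hb τ h1).2⟩
    · rw [boundary_add, hbc, sub_add_cancel]
  · intro hA i c hc hcyc
    obtain ⟨b, hb, hbc⟩ := hA i c (fun σ hσ => ⟨hsub (hc σ hσ).1, (hc σ hσ).2⟩) hcyc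
    obtain ⟨e, he⟩ : ∃ e : Finset V → 𝕜, e = tog Δ W a b := ⟨_, rfl⟩
    have hech : IsChain W (i + 1 + 1) e := he ▸ tog_chain fun σ hσ => (hb σ hσ).2
    have hbe := bd_chain hW hech
    have hbf : boundary b = c := funext hbc
    have htz : ∀ σ ∈ W, σ ∉ Δ → tog Δ W a (boundary b) σ = 0 := by
      intro σ h0 h00
      by_cases h1 : σ ∈ W ∧ σ ∉ Δ ∧ a ∈ σ
      · rw [tog_pos h1, hbf]
        have h2 : c (σ.erase a) = 0 := by
          by_contra h3
          exact (h σ h0 h00).2 (hc _ h3).1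
        rw [h2, mul_zero]
      · exact tog_neg h1
    refine ⟨fun τ => b τ - boundary e τ, ?_, fun τ => ?_⟩
    · intro τ hτ
      have h1 : τ ∈ W ∧ τ.card = i + 1 := by
        by_cases h2 : b τ = 0
        · have h3 : boundary e τ ≠ 0 := by
            intro h4
            apply hτ
            simp only [h2, h4, sub_zero]
          exact hbe τ h3
        · exact hb τ h2
      refine ⟨?_, h1.2⟩
      by_contra h2
      apply hτ
      have h3 := tog_key hΔ h (fun σ hσ => (hb σ hσ).1) h1.1 h2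
      rw [htz τ h1.1 h2, add_zero, ← he] at h3
      simp only [h3, sub_self]
    · rw [boundary_sub, hbc, boundary_boundary, sub_zero]

/-- the union of the two complexes of an exchange and the exchanged balls -/
private def WW {V : Type*} [DecidableEq V] (Δ : Set (Finset V)) (A B : Finset V) : Set (Finset V) :=
  {σ | σ ∈ Δ ∨ ∃ ρ ∈ Δ, A ⊆ ρ ∧ σ ⊆ ρ ∪ B}

private theorem ww_iff {V : Type*} [Fintype V] [LinearOrder V] {𝕜 : Type*} [Field 𝕜]
    {Δ Δ' : Set (Finset V)} {A B : Finset V} (h : Exchange Δ Δ' A B) :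
    Acyclic 𝕜 Δ ↔ Acyclic 𝕜 (WW Δ A B) := by
  obtain ⟨a, ha⟩ := h.neA
  refine acyclic_toggle h.down ?_ (fun σ hσ => Or.inl hσ) a ?_
  · rintro σ (hσ | ⟨ρ, hρ, hA, hσ⟩) τ hτ
    · exact Or.inl (h.down σ hσ τ hτ)
    · exact Or.inr ⟨ρ, hρ, hA, hτ.trans hσ⟩
  · rintro σ (hσ | ⟨ρ, hρ, hA, hσ⟩) hσΔ
    · exact absurd hσ hσΔ
    · have haB : a ∉ B := Finset.disjoint_left.1 h.disj ha
      refine ⟨Or.inr ⟨ρ, hρ, hA, ?_⟩, ?_⟩
      · intro x hx
        rcases Finset.mem_insert.1 hx with rfl | hx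
        · exact Finset.mem_union_left _ (hA ha)
        · exact hσ hx
      · intro h1
        refine h.hB _ h1 ?_
        intro b hb
        rw [Finset.mem_erase]
        refine ⟨fun h2 => haB (h2 ▸ hb), ?_⟩
        by_contra hbσ
        apply hσΔ
        have h2 := h.h2 ρ hρ hA a ha
        have h3 := h.h3 _ h2 (Finset.subset_union_right) b hb
        refine h.down _ h3 σ ?_
        intro x hx
        have hxb : x ≠ b := fun h4 => hbσ (h4 ▸ hx)
        by_cases hxa : x = a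
        · rw [hxa]
          exact Finset.mem_union_right _ ha
        · refine Finset.mem_union_left _ (Finset.mem_erase.2 ⟨hxb, ?_⟩)
          rcases Finset.mem_union.1 (hσ hx) with h4 | h4
          · exact Finset.mem_union_left _ (Finset.mem_erase.2 ⟨hxa, h4⟩)
          · exact Finset.mem_union_right _ h4

private theorem ww_sub {V : Type*} [DecidableEq V] {Δ Δ' : Set (Finset V)} {A B : Finset V}
    (h : Exchange Δ Δ' A B) : WW Δ' B A ⊆ WW Δ A B := by
  obtain ⟨b, hb⟩ := h.neB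
  have hkey : ∀ ρ ∈ Δ', B ⊆ ρ → ρ.erase b ∪ A ∈ Δ ∧ A ⊆ ρ.erase b ∪ A ∧ ρ ∪ A ⊆ (ρ.erase b ∪ A) ∪ B := by
    intro ρ hρ hB
    refine ⟨h.h3 ρ hρ hB b hb, Finset.subset_union_right, ?_⟩
    intro x hx
    by_cases hxb : x = b
    · rw [hxb]
      exact Finset.mem_union_right _ hb
    · refine Finset.mem_union_left _ ?_
      rcases Finset.mem_union.1 hx with h1 | h1
      · exact Finset.mem_union_left _ (Finset.mem_erase.2 ⟨hxb, h1⟩)
      · exact Finset.mem_union_right _ h1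
  rintro σ (hσ | ⟨ρ, hρ, hB, hσ⟩)
  · by_cases hBσ : B ⊆ σ
    · obtain ⟨h1, h2, h3⟩ := hkey σ hσ hBσ
      exact Or.inr ⟨_, h1, h2, Finset.subset_union_left.trans h3⟩
    · exact Or.inl (h.h1' σ hσ hBσ)
  · obtain ⟨h1, h2, h3⟩ := hkey ρ hρ hB
    exact Or.inr ⟨_, h1, h2, hσ.trans h3⟩

/-- Acyclicity is invariant under exchanges. -/
theorem acyclic_of_exchange {V : Type*} [Fintype V] [LinearOrder V] {𝕜 : Type*} [Field 𝕜]
    {Δ Δ' : Set (Finset V)} {A B : Finset V} (h : Exchange Δ Δ' A B) (hΔ : Acyclic 𝕜 Δ) :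
    Acyclic 𝕜 Δ' := by
  have h1 := (ww_iff (𝕜 := 𝕜) h).1 hΔ
  have h2 : WW Δ A B = WW Δ' B A := Set.Subset.antisymm (ww_sub h.symm) (ww_sub h)
  rw [h2] at h1
  exact (ww_iff (𝕜 := 𝕜) h.symm).2 h1

end Pool.Agent.H94.NP
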