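import Pool.Agent.H94.NP.Links

namespace Pool.Agent.H94.NP

open Finset Pool.Agent.H12.Ball

private theorem jn_comm (S E : Set (Finset ℕ)) : jn S E = jn E S := by
  ext T
  constructor
  · rintro ⟨s, hs, e, he, rfl⟩
    exact ⟨e, he, s, hs, Finset.union_comm _ _⟩
  · rintro ⟨s, hs, e, he, rfl⟩
    exact ⟨e, he, s, hs, Finset.union_comm _ _⟩

/-- Removing an interior vertex of a path. -/
theorem path_step {S : Set (Finset ℕ)} {o m k : ℕ} (hk : 1 ≤ k) (hkm : k < m)
    (hS : ∀ s ∈ S, ∀ v ∈ s, ¬ (o ≤ v ∧ v ≤ o + m)) :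
    Exchange (cl (jn S (pathF o m k))) (cl (jn S (pathF o m (k + 1)))) {o + k}
      {o, o + k + 1} := by
  have n0 : ∀ s ∈ S, o ∉ s := fun s hs h => hS s hs o h ⟨le_rfl, Nat.le_add_right _ _⟩
  have n1 : ∀ s ∈ S, o + k ∉ s := fun s hs h => hS s hs _ h ⟨Nat.le_add_right _ _, by omega⟩
  have n2 : ∀ s ∈ S, o + k + 1 ∉ s := fun s hs h => hS s hs _ h ⟨by omega, by omega⟩
  refine exchange_of_facets (L := S) (Finset.singleton_nonempty _) ⟨o, by simp⟩ ?_ ?_ ?_ ?_ ?_ ?_ ?_ ?_
  · rw [Finset.disjoint_singleton_left]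
    simp only [Finset.mem_insert, Finset.mem_singleton]
    omega
  · intro l hl
    rw [Finset.disjoint_singleton_left]
    exact n1 l hl
  · rintro T ⟨s, hs, e, he, rfl⟩ hB
    have h1 : o ∈ s ∪ e := hB (by simp)
    have h2 : o + k + 1 ∈ s ∪ e := hB (by simp)
    rw [Finset.mem_union] at h1 h2
    have h1' := h1.resolve_left (n0 s hs)
    have h2' := h2.resolve_left (n2 s hs)
    rcases he with rfl | ⟨i, hi, him, rfl⟩
    · simp only [Finset.mem_insert, Finset.mem_singleton] at h2'
      omega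
    · simp only [Finset.mem_insert, Finset.mem_singleton] at h1'
      omega
  · rintro T ⟨s, hs, e, he, rfl⟩ hA
    have h1 : o + k ∈ s ∪ e := hA (by simp)
    rw [Finset.mem_union] at h1
    have h1' := h1.resolve_left (n1 s hs)
    rcases he with rfl | ⟨i, hi, him, rfl⟩
    · refine ⟨o + k + 1, by simp, s, hs, ?_⟩
      intro x hx
      simp only [Finset.mem_union, Finset.mem_insert, Finset.mem_singleton, Finset.mem_erase] at hx ⊢
      rcases hx with h | h | h
      · exact Or.inr h
      · left; right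
        exact ⟨by omega, Or.inl h⟩
      · left; left
        exact h
    · simp only [Finset.mem_insert, Finset.mem_singleton] at h1'
      have hik : i = k := by omega
      subst hik
      refine ⟨o, by simp, s, hs, ?_⟩
      intro x hx
      simp only [Finset.mem_union, Finset.mem_insert, Finset.mem_singleton, Finset.mem_erase] at hx ⊢
      rcases hx with h | h | h
      · exact Or.inr h
      · left; left
        exact h
      · left; right
        exact ⟨by omega, Or.inr h⟩
  · intro b hb l hl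
    simp only [Finset.mem_insert, Finset.mem_singleton] at hb
    rcases hb with rfl | rfl
    · refine ⟨l ∪ {b + k, b + k + 1}, ⟨l, hl, _, Or.inr ⟨k, le_rfl, hkm, rfl⟩, rfl⟩, ?_⟩
      intro x hx
      simp only [Finset.mem_union, Finset.mem_insert, Finset.mem_singleton, Finset.mem_erase] at hx ⊢
      tauto
    · refine ⟨l ∪ {o, o + k}, ⟨l, hl, _, Or.inl rfl, rfl⟩, ?_⟩
      intro x hx
      simp only [Finset.mem_union, Finset.mem_insert, Finset.mem_singleton, Finset.mem_erase] at hx ⊢
      tauto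
  · rintro T ⟨s, hs, e, he, rfl⟩
    rcases he with rfl | ⟨i, hi, him, rfl⟩
    · right
      refine ⟨o + k, by simp, s, hs, ?_⟩
      intro x hx
      simp only [Finset.mem_union, Finset.mem_insert, Finset.mem_singleton, Finset.mem_erase] at hx ⊢
      have : o + (k + 1) = o + k + 1 := by omega
      rw [this] at hx
      tauto
    · left
      refine ⟨⟨s, hs, _, Or.inr ⟨i, by omega, him, rfl⟩, rfl⟩, fun hA => ?_⟩
      have h1 : o + k ∈ s ∪ {o + i, o + i + 1} := hA (by simp)
      rw [Finset.mem_union] at h1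
      have h1' := h1.resolve_left (n1 s hs)
      simp only [Finset.mem_insert, Finset.mem_singleton] at h1'
      omega
  · rintro T ⟨s, hs, e, he, rfl⟩ hA
    rcases he with rfl | ⟨i, hi, him, rfl⟩
    · exfalso
      apply hA
      intro x hx
      simp only [Finset.mem_union, Finset.mem_insert, Finset.mem_singleton] at hx ⊢
      tauto
    · refine ⟨s, hs, _, Or.inr ⟨i, ?_, him, rfl⟩, rfl⟩
      by_contra hlt
      have hik : i = k := by omega
      subst hik
      apply hA
      intro x hx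
      simp only [Finset.mem_union, Finset.mem_insert, Finset.mem_singleton] at hx ⊢
      tauto
  · intro a ha l hl
    refine ⟨l ∪ {o, o + (k + 1)}, ⟨l, hl, _, Or.inl rfl, rfl⟩, ?_⟩
    intro x hx
    simp only [Finset.mem_union, Finset.mem_insert, Finset.mem_singleton, Finset.mem_erase] at hx ha ⊢
    have : o + (k + 1) = o + k + 1 := by omega
    rw [this]
    subst ha
    tauto

private theorem path_end (o m : ℕ) : pathF o m m = {{o, o + m}} := by
  ext e
  constructor
  · rintro (rfl | ⟨i, h1, h2, -⟩)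
    · rfl
    · omega
  · intro h
    exact Or.inl h

theorem path_chain {S : Set (Finset ℕ)} {o m n : ℕ} (hm : 1 ≤ m) (hn : o + m < n)
    (hS : ∀ s ∈ S, ∀ v ∈ s, ¬ (o ≤ v ∧ v ≤ o + m)) :
    Relation.ReflTransGen (Step1 n) (cl (jn S (pathF o m 1))) (cl (jn S {{o, o + m}})) := by
  rw [← path_end]
  have h : ∀ k, 1 ≤ k → k ≤ m →
      Relation.ReflTransGen (Step1 n) (cl (jn S (pathF o m 1))) (cl (jn S (pathF o m k))) := by
    intro k hk
    induction k, hk using Nat.le_induction with
    | base => exact fun _ => Relation.ReflTransGen.refl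
    | succ k hk ih =>
      intro hkm
      refine (ih (by omega)).tail ⟨{o + k}, {o, o + k + 1}, path_step hk (by omega) hS, ?_, ?_⟩
      · intro v hv
        rw [Finset.mem_singleton] at hv
        omega
      · intro v hv
        simp only [Finset.mem_insert, Finset.mem_singleton] at hv
        omega
  exact h m hm le_rfl

theorem path_inv {n : ℕ} {P : Set (Finset (Fin n)) → Prop} (hP : Inv n P) {S : Set (Finset ℕ)}
    {o m : ℕ} (hm : 1 ≤ m) (hn : o + m < n)
    (hS : ∀ s ∈ S, ∀ v ∈ s, ¬ (o ≤ v ∧ v ≤ o + m)) : P (rs n (cl (jn S (pathF o m 1)))) := by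
  rw [inv_step1 hP (path_chain hm hn hS)]
  refine hP.cone _ ⟨o, by omega⟩ (rs_down (cl_down _)) ?_
  rintro σ ⟨T, hT, hσ⟩
  refine ⟨T, hT, ?_⟩
  obtain ⟨s, hs, e, he, rfl⟩ := hT
  rw [Set.mem_singleton_iff] at he
  subst he
  intro x hx
  rw [Finset.mem_map] at hx
  obtain ⟨y, hy, rfl⟩ := hx
  rw [Finset.mem_insert] at hy
  rcases hy with rfl | hy
  · simp
  · exact hσ (Finset.mem_map_of_mem _ hy)

private theorem path_one {o m : ℕ} (hm : 1 ≤ m) {e : Finset ℕ} :
    e ∈ pathF o m 1 ↔ ∃ i < m, e = {o + i, o + i + 1} := by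
  constructor
  · rintro (rfl | ⟨i, h1, h2, rfl⟩)
    · exact ⟨0, by omega, rfl⟩
    · exact ⟨i, h2, rfl⟩
  · rintro ⟨i, hi, rfl⟩
    rcases Nat.eq_zero_or_pos i with rfl | h0
    · exact Or.inl rfl
    · exact Or.inr ⟨i, h0, hi, rfl⟩

theorem fac_nil (A B : ℕ) (hA : 1 ≤ A) (hB : 1 ≤ B) :
    fac A B [] = jn (pathF 0 A 1) (pathF (A + 1) B 1) := by
  ext T
  constructor
  · rintro (⟨i, hi, j, hj, -, rfl⟩ | ⟨r, hr, -⟩)
    · refine ⟨{0 + i, 0 + i + 1}, (path_one hA).2 ⟨i, hi, rfl⟩, {A + 1 + j, A + 1 + j + 1},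
        (path_one hB).2 ⟨j, hj, rfl⟩, ?_⟩
      ext x
      simp only [sq, Finset.mem_union, Finset.mem_insert, Finset.mem_singleton, zero_add]
      tauto
    · simp at hr
  · rintro ⟨s, hs, e, he, rfl⟩
    obtain ⟨i, hi, rfl⟩ := (path_one hA).1 hs
    obtain ⟨j, hj, rfl⟩ := (path_one hB).1 he
    left
    refine ⟨i, hi, j, hj, by simp, ?_⟩
    ext x
    simp only [sq, Finset.mem_union, Finset.mem_insert, Finset.mem_singleton, zero_add]
    tauto

private theorem path_vert {o m : ℕ} (hm : 1 ≤ m) {e : Finset ℕ} (he : e ∈ pathF o m 1) {v : ℕ} (hv : v ∈ e) :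
    o ≤ v ∧ v ≤ o + m := by
  obtain ⟨i, hi, rfl⟩ := (path_one hm).1 he
  simp only [Finset.mem_insert, Finset.mem_singleton] at hv
  omega

private theorem jn_link {S E : Set (Finset ℕ)} {v : ℕ} (hE : ∀ e ∈ E, v ∉ e) :
    {s | ∃ T ∈ jn S E, v ∈ T ∧ s = T.erase v} = jn {s | ∃ T ∈ S, v ∈ T ∧ s = T.erase v} E := by
  ext s
  constructor
  · rintro ⟨T, ⟨a, ha, e, he, rfl⟩, hv, rfl⟩
    rw [Finset.mem_union] at hv
    have hv' := hv.resolve_right (hE e he)
    refine ⟨a.erase v, ⟨a, ha, hv', rfl⟩, e, he, ?_⟩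
    rw [Finset.erase_union_distrib, Finset.erase_eq_of_notMem (hE e he)]
  · rintro ⟨a', ⟨a, ha, hv, rfl⟩, e, he, rfl⟩
    refine ⟨a ∪ e, ⟨a, ha, e, he, rfl⟩, Finset.mem_union_left _ hv, ?_⟩
    rw [Finset.erase_union_distrib, Finset.erase_eq_of_notMem (hE e he)]

theorem base_inv {n : ℕ} {P : Set (Finset (Fin n)) → Prop} (hP : Inv n P) {A B : ℕ}
    (hA : 1 ≤ A) (hB : 1 ≤ B) (hn : A + B + 2 ≤ n) (v : Fin n) :
    P (link (rs n (cl (fac A B []))) {v}) := by
  have hmap : ({v} : Finset (Fin n)).map Fin.valEmbedding = {(v : ℕ)} := by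
    rw [Finset.map_singleton]
    rfl
  rw [link_rs, hmap, link_cl, fac_nil A B hA hB]
  rcases Nat.lt_or_ge A v with h1 | h1
  · rcases Nat.lt_or_ge (A + 1 + B) v with h2 | h2
    · -- no vertex
      have h3 : {s | ∃ T ∈ jn (pathF 0 A 1) (pathF (A + 1) B 1), (v : ℕ) ∈ T ∧ s = T.erase (v : ℕ)} = ∅ := by
        rw [Set.eq_empty_iff_forall_notMem]
        rintro s ⟨T, ⟨a, ha, e, he, rfl⟩, hv, -⟩
        rw [Finset.mem_union] at hv
        rcases hv with hv | hv
        · have := path_vert hA ha hv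
          omega
        · have := path_vert hB he hv
          omega
      rw [h3]
      refine hP.cone _ v (rs_down (cl_down _)) ?_
      rintro σ ⟨T, hT, -⟩
      exact absurd hT (Set.notMem_empty _)
    · rw [jn_comm, jn_link (fun e he hv => by have := path_vert hA he hv; omega)]
      refine path_inv hP hA (by omega) ?_
      rintro s ⟨T, hT, -, rfl⟩ x hx
      have := path_vert hB hT (Finset.mem_of_mem_erase hx)
      omega
  · rw [jn_link (fun e he hv => by have := path_vert hB he hv; omega)]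
    refine path_inv hP hB (by omega) ?_
    rintro s ⟨T, hT, -, rfl⟩ x hx
    have := path_vert hA hT (Finset.mem_of_mem_erase hx)
    omega

theorem base_chain {n A B : ℕ} (hA : 1 ≤ A) (hB : 1 ≤ B) (hn : A + B + 2 ≤ n) :
    Relation.ReflTransGen (Step1 n) (cl (fac A B [])) (cl {{0, A, A + 1, A + 1 + B}}) := by
  rw [fac_nil A B hA hB]
  have h1 : Relation.ReflTransGen (Step1 n) (cl (jn (pathF 0 A 1) (pathF (A + 1) B 1)))
      (cl (jn (pathF 0 A 1) {{A + 1, A + 1 + B}})) := by
    refine path_chain hB (by omega) ?_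
    intro s hs x hx
    have := path_vert hA hs hx
    omega
  refine h1.trans ?_
  rw [jn_comm]
  have h2 : Relation.ReflTransGen (Step1 n) (cl (jn {{A + 1, A + 1 + B}} (pathF 0 A 1)))
      (cl (jn {{A + 1, A + 1 + B}} {{0, 0 + A}})) := by
    refine path_chain hA (by omega) ?_
    intro s hs x hx
    rw [Set.mem_singleton_iff] at hs
    subst hs
    simp only [Finset.mem_insert, Finset.mem_singleton] at hx
    omega
  have h3 : jn {{A + 1, A + 1 + B}} {{0, 0 + A}} = ({{0, A, A + 1, A + 1 + B}} : Set (Finset ℕ)) := by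
    ext T
    constructor
    · rintro ⟨s, hs, e, he, rfl⟩
      rw [Set.mem_singleton_iff] at hs he ⊢
      subst hs he
      ext x
      simp only [Finset.mem_union, Finset.mem_insert, Finset.mem_singleton, zero_add]
      tauto
    · intro hT
      rw [Set.mem_singleton_iff] at hT
      subst hT
      refine ⟨_, rfl, _, rfl, ?_⟩
      ext x
      simp only [Finset.mem_union, Finset.mem_insert, Finset.mem_singleton, zero_add]
      tauto
  rw [h3] at h2
  exact h2

end Pool.Agent.H94.NP
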