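import Pool.Agent.H94.NP.BlockLocal

namespace Pool.Agent.H94.NP

open Finset Pool.Agent.H12.Ball

private theorem mem_sq {M i j v : ℕ} : v ∈ sq M i j ↔ v = i ∨ v = i + 1 ∨ v = M + j ∨ v = M + j + 1 := by
  unfold sq
  simp only [mem_insert, mem_singleton]

theorem away_of_good {A B : ℕ} {r : Rect} {R : List Rect} (h : GoodList A B (r :: R)) :
    Away (A + 1) r ({T | ∃ i < A, ∃ j < B, (∀ s ∈ r :: R, ¬ cov s i j) ∧ T = sq (A + 1) i j} ∪
      {T | ∃ s ∈ R, T ∈ cb (A + 1) s}) := by
  obtain ⟨hf, hr⟩ := h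
  obtain ⟨hp, hq, hA, hB⟩ := hf r List.mem_cons_self
  rw [List.pairwise_cons] at hr
  rintro T (⟨i, hi, j, hj, hc, rfl⟩ | ⟨s, hs, hT⟩)
  · have hc' := hc r List.mem_cons_self
    unfold cov at hc'
    refine ⟨?_, ?_, ?_⟩
    · rintro x y hx hx' hy hy' ⟨h1, h2⟩
      rw [mem_sq] at h1 h2
      omega
    · rintro d hd hd' ⟨h1, h2⟩
      rw [mem_sq] at h1 h2
      omega
    · rintro ⟨h1, h2⟩
      rw [mem_sq] at h1 h2
      omega
  · obtain ⟨hsp, hsq, hsA, hsB⟩ := hf s (List.mem_cons_of_mem _ hs)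
    obtain ⟨hsep, hri, hrj⟩ := hr.1 s hs
    unfold Sep at hsep
    rcases hT with ⟨k, hk, rfl⟩ | ⟨k, hk, rfl⟩ | rfl
    · refine ⟨?_, ?_, ?_⟩
      · rintro x y hx hx' hy hy' ⟨h1, h2⟩
        simp only [mem_insert, mem_singleton] at h1 h2
        omega
      · rintro d hd hd' ⟨h1, h2⟩
        simp only [mem_insert, mem_singleton] at h1 h2
        omega
      · rintro ⟨h1, h2⟩
        simp only [mem_insert, mem_singleton] at h1 h2
        omega
    · refine ⟨?_, ?_, ?_⟩
      · rintro x y hx hx' hy hy' ⟨h1, h2⟩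
        simp only [mem_insert, mem_singleton] at h1 h2
        omega
      · rintro d hd hd' ⟨h1, h2⟩
        simp only [mem_insert, mem_singleton] at h1 h2
        omega
      · rintro ⟨h1, h2⟩
        simp only [mem_insert, mem_singleton] at h1 h2
        omega
    · refine ⟨?_, ?_, ?_⟩
      · rintro x y hx hx' hy hy' ⟨h1, h2⟩
        simp only [mem_insert, mem_singleton] at h1 h2
        omega
      · rintro d hd hd' ⟨h1, h2⟩
        simp only [mem_insert, mem_singleton] at h1 h2
        omega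
      · rintro ⟨h1, h2⟩
        simp only [mem_insert, mem_singleton] at h1 h2
        omega

/-- `fac A B R = G ∪ blk (A + 1) r` and `fac A B (r :: R) = G ∪ cb (A + 1) r` with the family `G`
of `away_of_good`; then `local_chain`. -/
theorem block_chain {n A B : ℕ} {r : Rect} {R : List Rect} (h : GoodList A B (r :: R))
    (hn : A + B + 2 ≤ n) :
    Relation.ReflTransGen (Step2 n) (cl (fac A B R)) (cl (fac A B (r :: R))) := by
  have haw := away_of_good h
  obtain ⟨hf, hr⟩ := h
  obtain ⟨hp, hq, hA, hB⟩ := hf r List.mem_cons_self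
  rw [List.pairwise_cons] at hr
  have e1 : fac A B R = ({T | ∃ i < A, ∃ j < B, (∀ s ∈ r :: R, ¬ cov s i j) ∧ T = sq (A + 1) i j} ∪
      {T | ∃ s ∈ R, T ∈ cb (A + 1) s}) ∪ blk (A + 1) r := by
    ext T
    constructor
    · rintro (⟨i, hi, j, hj, hc, hT⟩ | hT)
      · by_cases hcr : cov r i j
        · exact Or.inr ⟨i, j, hcr, hT⟩
        · refine Or.inl (Or.inl ⟨i, hi, j, hj, ?_, hT⟩)
          intro s hs
          rcases List.mem_cons.1 hs with rfl | hs
          · exact hcr
          · exact hc s hs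
      · exact Or.inl (Or.inr hT)
    · rintro ((⟨i, hi, j, hj, hc, hT⟩ | hT) | ⟨i, j, hcr, hT⟩)
      · exact Or.inl ⟨i, hi, j, hj, fun s hs => hc s (List.mem_cons_of_mem _ hs), hT⟩
      · exact Or.inr hT
      · unfold cov at hcr
        refine Or.inl ⟨i, by omega, j, by omega, ?_, hT⟩
        intro s hs hcs
        have hsep := (hr.1 s hs).1
        unfold Sep at hsep
        unfold cov at hcs
        omega
  have e2 : fac A B (r :: R) =
      ({T | ∃ i < A, ∃ j < B, (∀ s ∈ r :: R, ¬ cov s i j) ∧ T = sq (A + 1) i j} ∪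
      {T | ∃ s ∈ R, T ∈ cb (A + 1) s}) ∪ cb (A + 1) r := by
    ext T
    constructor
    · rintro (hT | ⟨s, hs, hT⟩)
      · exact Or.inl (Or.inl hT)
      · rcases List.mem_cons.1 hs with rfl | hs
        · exact Or.inr hT
        · exact Or.inl (Or.inr ⟨s, hs, hT⟩)
    · rintro ((hT | ⟨s, hs, hT⟩) | hT)
      · exact Or.inl hT
      · exact Or.inr ⟨s, List.mem_cons_of_mem _ hs, hT⟩
      · exact Or.inr ⟨r, List.mem_cons_self, hT⟩
  rw [e1, e2]
  exact local_chain hp hq (by omega) (by omega) haw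

theorem rect_chain {n A B : ℕ} {R : List Rect} (h : GoodList A B R) (hn : A + B + 2 ≤ n) :
    Relation.ReflTransGen (Step2 n) (cl (fac A B [])) (cl (fac A B R)) := by
  induction R with
  | nil => exact Relation.ReflTransGen.refl
  | cons r R ih =>
    refine (ih ⟨fun s hs => h.1 s (List.mem_cons_of_mem _ hs), (List.pairwise_cons.1 h.2).2⟩).trans ?_
    exact block_chain h hn

end Pool.Agent.H94.NP
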