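import Pool.Agent.H94.NP.Facets

namespace Pool.Agent.H94.NP

open Finset Pool.Agent.H12.Ball

/-- The facets of the block of unit squares. -/
def blk (M : ℕ) (r : Rect) : Set (Finset ℕ) := {T | ∃ i j, cov r i j ∧ T = sq M i j}

/-- The facets outside the block: none of them contains one of the pairs used in the block. -/
def Away (M : ℕ) (r : Rect) (G : Set (Finset ℕ)) : Prop :=
  ∀ T ∈ G, (∀ x y, 0 < x → x < r.p → 0 < y → y < r.q → ¬ (r.i + x ∈ T ∧ M + r.j + y ∈ T)) ∧
    (∀ d, 2 ≤ d → d ≤ r.p → ¬ (r.i ∈ T ∧ r.i + d ∈ T)) ∧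
    ¬ (M + r.j ∈ T ∧ M + r.j + r.q ∈ T)

/-- Bistellar flip, two against three. -/
private theorem flip23 {F0 F F' : Set (Finset ℕ)} {x1 x2 y1 y2 y3 : ℕ}
    (hx : x1 ≠ x2) (hy1 : y1 ≠ y2) (hy2 : y1 ≠ y3) (hy3 : y2 ≠ y3)
    (h11 : x1 ≠ y1) (h12 : x1 ≠ y2) (h13 : x1 ≠ y3) (h21 : x2 ≠ y1) (h22 : x2 ≠ y2)
    (h23 : x2 ≠ y3)
    (hF : ∀ T, T ∈ F ↔ T ∈ F0 ∨ T = {x1, x2, y1, y2} ∨ T = {x1, x2, y1, y3} ∨
      T = {x1, x2, y2, y3})
    (hF' : ∀ T, T ∈ F' ↔ T ∈ F0 ∨ T = {x1, y1, y2, y3} ∨ T = {x2, y1, y2, y3})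
    (hA : ∀ T ∈ F0, ¬ (x1 ∈ T ∧ x2 ∈ T)) (hB : ∀ T ∈ F0, ¬ (y1 ∈ T ∧ y2 ∈ T ∧ y3 ∈ T)) :
    Exchange (cl F) (cl F') {x1, x2} {y1, y2, y3} := by
  refine exchange_of_facets (L := {∅}) ⟨x1, by simp⟩ ⟨y1, by simp⟩ ?_ ?_ ?_ ?_ ?_ ?_ ?_ ?_
  · rw [Finset.disjoint_left]
    intro a ha
    simp only [Finset.mem_insert, Finset.mem_singleton] at ha ⊢
    omega
  · rintro l rfl
    exact Finset.disjoint_empty_right _
  · intro T hT hBT
    have m1 : y1 ∈ T := hBT (by simp)
    have m2 : y2 ∈ T := hBT (by simp)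
    have m3 : y3 ∈ T := hBT (by simp)
    rcases (hF T).1 hT with h | rfl | rfl | rfl
    · exact hB T h ⟨m1, m2, m3⟩
    all_goals
      simp only [Finset.mem_insert, Finset.mem_singleton] at m1 m2 m3
      omega
  · intro T hT hAT
    rcases (hF T).1 hT with h | rfl | rfl | rfl
    · exact absurd ⟨hAT (by simp), hAT (by simp)⟩ (hA T h)
    · refine ⟨y3, by simp, ∅, rfl, ?_⟩
      intro z hz
      simp only [Finset.mem_insert, Finset.mem_singleton, Finset.mem_union,
        Finset.mem_erase, Finset.notMem_empty, ne_eq, or_false] at hz ⊢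
      omega
    · refine ⟨y2, by simp, ∅, rfl, ?_⟩
      intro z hz
      simp only [Finset.mem_insert, Finset.mem_singleton, Finset.mem_union,
        Finset.mem_erase, Finset.notMem_empty, ne_eq, or_false] at hz ⊢
      omega
    · refine ⟨y1, by simp, ∅, rfl, ?_⟩
      intro z hz
      simp only [Finset.mem_insert, Finset.mem_singleton, Finset.mem_union,
        Finset.mem_erase, Finset.notMem_empty, ne_eq, or_false] at hz ⊢
      omega
  · rintro b hb l rfl
    simp only [Finset.mem_insert, Finset.mem_singleton] at hb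
    rcases hb with rfl | rfl | rfl
    · refine ⟨_, (hF _).2 (Or.inr (Or.inr (Or.inr rfl))), ?_⟩
      intro z hz
      simp only [Finset.mem_insert, Finset.mem_singleton, Finset.mem_union,
        Finset.mem_erase, Finset.notMem_empty, ne_eq, or_false] at hz ⊢
      omega
    · refine ⟨_, (hF _).2 (Or.inr (Or.inr (Or.inl rfl))), ?_⟩
      intro z hz
      simp only [Finset.mem_insert, Finset.mem_singleton, Finset.mem_union,
        Finset.mem_erase, Finset.notMem_empty, ne_eq, or_false] at hz ⊢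
      omega
    · refine ⟨_, (hF _).2 (Or.inr (Or.inl rfl)), ?_⟩
      intro z hz
      simp only [Finset.mem_insert, Finset.mem_singleton, Finset.mem_union,
        Finset.mem_erase, Finset.notMem_empty, ne_eq, or_false] at hz ⊢
      omega
  · intro T hT
    rcases (hF' T).1 hT with h | rfl | rfl
    · refine Or.inl ⟨(hF T).2 (Or.inl h), fun hs => hA T h ⟨hs (by simp), hs (by simp)⟩⟩
    · refine Or.inr ⟨x2, by simp, ∅, rfl, ?_⟩
      intro z hz
      simp only [Finset.mem_insert, Finset.mem_singleton, Finset.mem_union,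
        Finset.mem_erase, Finset.notMem_empty, ne_eq, or_false] at hz ⊢
      omega
    · refine Or.inr ⟨x1, by simp, ∅, rfl, ?_⟩
      intro z hz
      simp only [Finset.mem_insert, Finset.mem_singleton, Finset.mem_union,
        Finset.mem_erase, Finset.notMem_empty, ne_eq, or_false] at hz ⊢
      omega
  · intro T hT hn
    rcases (hF T).1 hT with h | rfl | rfl | rfl
    · exact (hF' T).2 (Or.inl h)
    all_goals
      refine absurd (fun z hz => ?_) hn
      simp only [Finset.mem_insert, Finset.mem_singleton] at hz ⊢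
      omega
  · rintro a ha l rfl
    simp only [Finset.mem_insert, Finset.mem_singleton] at ha
    rcases ha with rfl | rfl
    · refine ⟨_, (hF' _).2 (Or.inr (Or.inr rfl)), ?_⟩
      intro z hz
      simp only [Finset.mem_insert, Finset.mem_singleton, Finset.mem_union,
        Finset.mem_erase, Finset.notMem_empty, ne_eq, or_false] at hz ⊢
      omega
    · refine ⟨_, (hF' _).2 (Or.inr (Or.inl rfl)), ?_⟩
      intro z hz
      simp only [Finset.mem_insert, Finset.mem_singleton, Finset.mem_union,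
        Finset.mem_erase, Finset.notMem_empty, ne_eq, or_false] at hz ⊢
      omega

private theorem step23 {n : ℕ} {F0 F F' : Set (Finset ℕ)} {x1 x2 y1 y2 y3 : ℕ}
    (hx : x1 ≠ x2) (hy1 : y1 ≠ y2) (hy2 : y1 ≠ y3) (hy3 : y2 ≠ y3)
    (h11 : x1 ≠ y1) (h12 : x1 ≠ y2) (h13 : x1 ≠ y3) (h21 : x2 ≠ y1) (h22 : x2 ≠ y2)
    (h23 : x2 ≠ y3) (b1 : x1 < n) (b2 : x2 < n) (b3 : y1 < n) (b4 : y2 < n) (b5 : y3 < n)
    (hF : ∀ T, T ∈ F ↔ T ∈ F0 ∨ T = {x1, x2, y1, y2} ∨ T = {x1, x2, y1, y3} ∨
      T = {x1, x2, y2, y3})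
    (hF' : ∀ T, T ∈ F' ↔ T ∈ F0 ∨ T = {x1, y1, y2, y3} ∨ T = {x2, y1, y2, y3})
    (hA : ∀ T ∈ F0, ¬ (x1 ∈ T ∧ x2 ∈ T)) (hB : ∀ T ∈ F0, ¬ (y1 ∈ T ∧ y2 ∈ T ∧ y3 ∈ T)) :
    Step2 n (cl F) (cl F') ∧ Step2 n (cl F') (cl F) := by
  have h := flip23 hx hy1 hy2 hy3 h11 h12 h13 h21 h22 h23 hF hF' hA hB
  have c2 : ({x1, x2} : Finset ℕ).card = 2 := Finset.card_pair hx
  have c3 : ({y1, y2, y3} : Finset ℕ).card = 3 := Finset.card_eq_three.2
    ⟨y1, y2, y3, hy1, hy2, hy3, rfl⟩
  have k1 : ∀ v ∈ ({x1, x2} : Finset ℕ), v < n := by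
    intro v hv
    simp only [Finset.mem_insert, Finset.mem_singleton] at hv
    omega
  have k2 : ∀ v ∈ ({y1, y2, y3} : Finset ℕ), v < n := by
    intro v hv
    simp only [Finset.mem_insert, Finset.mem_singleton] at hv
    omega
  exact ⟨⟨_, _, h, by omega, by omega, k1, k2⟩, ⟨_, _, h.symm, by omega, by omega, k2, k1⟩⟩

private def sqs (a b p q c : ℕ) (T : Finset ℕ) : Prop :=
  ∃ x y, c ≤ x ∧ x < p ∧ y < q ∧ T = {a + x, a + x + 1, b + y, b + y + 1}

private def col (a b q u w y : ℕ) (T : Finset ℕ) : Prop :=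
  ∃ t, y ≤ t ∧ t < q ∧ T = {a + u, a + w, b + t, b + t + 1}

private def low (a b u w y : ℕ) (T : Finset ℕ) : Prop :=
  ∃ t, t < y ∧ T = {a + u, a + w, b + t, b + t + 1}

private def top (a b q c : ℕ) (T : Finset ℕ) : Prop :=
  2 ≤ c ∧ ∃ x, x < c ∧ T = {a + x, a + x + 1, b, b + q}

private def tp (a b q c : ℕ) (T : Finset ℕ) : Prop :=
  2 ≤ c ∧ T = {a, a + c, b, b + q}

private theorem sqs_succ {a b p q c : ℕ} {T : Finset ℕ} (hc : c < p) :
    sqs a b p q c T ↔ sqs a b p q (c + 1) T ∨ col a b q c (c + 1) 0 T := by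
  constructor
  · rintro ⟨x, y, h1, h2, h3, rfl⟩
    by_cases h : x = c
    · subst h
      exact Or.inr ⟨y, Nat.zero_le _, h3, rfl⟩
    · exact Or.inl ⟨x, y, by omega, h2, h3, rfl⟩
  · rintro (⟨x, y, h1, h2, h3, rfl⟩ | ⟨t, h1, h2, rfl⟩)
    · exact ⟨x, y, by omega, h2, h3, rfl⟩
    · exact ⟨c, t, le_refl _, hc, h2, rfl⟩

private theorem col_succ {a b q u w y : ℕ} {T : Finset ℕ} (hy : y < q) :
    col a b q u w y T ↔ col a b q u w (y + 1) T ∨ T = {a + u, a + w, b + y, b + y + 1} := by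
  constructor
  · rintro ⟨t, h1, h2, rfl⟩
    by_cases h : t = y
    · subst h
      exact Or.inr rfl
    · exact Or.inl ⟨t, by omega, h2, rfl⟩
  · rintro (⟨t, h1, h2, rfl⟩ | rfl)
    · exact ⟨t, by omega, h2, rfl⟩
    · exact ⟨y, le_refl _, hy, rfl⟩

private theorem low_succ {a b u w y : ℕ} {T : Finset ℕ} :
    low a b u w (y + 1) T ↔ low a b u w y T ∨ T = {a + u, a + w, b + y, b + y + 1} := by
  constructor
  · rintro ⟨t, h1, rfl⟩
    by_cases h : t = y
    · subst h
      exact Or.inr rfl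
    · exact Or.inl ⟨t, by omega, rfl⟩
  · rintro (⟨t, h1, rfl⟩ | rfl)
    · exact ⟨t, by omega, rfl⟩
    · exact ⟨y, by omega, rfl⟩

private theorem low_zero {a b u w : ℕ} {T : Finset ℕ} : low a b u w 0 T ↔ False := by
  constructor
  · rintro ⟨t, h1, -⟩
    omega
  · exact False.elim

private theorem low_col {a b q u w : ℕ} {T : Finset ℕ} : low a b u w q T ↔ col a b q u w 0 T := by
  constructor
  · rintro ⟨t, h1, rfl⟩
    exact ⟨t, Nat.zero_le _, h1, rfl⟩
  · rintro ⟨t, -, h1, rfl⟩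
    exact ⟨t, h1, rfl⟩

private theorem col_last {a b q u w : ℕ} {T : Finset ℕ} : col a b q u w q T ↔ False := by
  constructor
  · rintro ⟨t, h1, h2, -⟩
    omega
  · exact False.elim

/-- The family `S c`. -/
private def S (G : Set (Finset ℕ)) (a b p q c : ℕ) : Set (Finset ℕ) :=
  {T | T ∈ G ∨ sqs a b p q c T ∨ col a b q 0 c 0 T ∨ top a b q c T ∨ tp a b q c T}

/-- The family `X c y`. -/
private def X (G : Set (Finset ℕ)) (a b p q c y : ℕ) : Set (Finset ℕ) :=
  {T | T ∈ G ∨ sqs a b p q (c + 1) T ∨ col a b q c (c + 1) y T ∨ col a b q 0 c y T ∨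
    low a b 0 (c + 1) y T ∨ T = {a, a + c, a + c + 1, b} ∨ T = {a, a + c, a + c + 1, b + y} ∨
    top a b q c T ∨ tp a b q c T}

/-- `Away` with `a = r.i`, `b = M + r.j`. -/
private def Aw (G : Set (Finset ℕ)) (a b p q : ℕ) : Prop :=
  ∀ T ∈ G, (∀ x y, 0 < x → x < p → 0 < y → y < q → ¬ (a + x ∈ T ∧ b + y ∈ T)) ∧
    (∀ d, 2 ≤ d → d ≤ p → ¬ (a ∈ T ∧ a + d ∈ T)) ∧ ¬ (b ∈ T ∧ b + q ∈ T)

private theorem first_flip {n a b p q c : ℕ} {G : Set (Finset ℕ)} (hq : 2 ≤ q)
    (hM : a + p < b) (hn : b + q < n) (hG : Aw G a b p q) (hc : 1 ≤ c) (hcp : c < p) :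
    Step2 n (cl (S G a b p q c)) (cl (X G a b p q c 1)) := by
  refine (step23 (F0 := {T | T ∈ G ∨ sqs a b p q (c + 1) T ∨ col a b q c (c + 1) 1 T ∨
    col a b q 0 c 1 T ∨ top a b q c T ∨ tp a b q c T}) (x1 := a) (x2 := a + c + 1)
    (y1 := a + c) (y2 := b) (y3 := b + 1) (by omega) (by omega) (by omega) (by omega) (by omega)
    (by omega) (by omega) (by omega) (by omega) (by omega) (by omega) (by omega) (by omega)
    (by omega) (by omega) ?_ ?_ ?_ ?_).2
  · intro T
    have e1 : ({a, a + c + 1, a + c, b} : Finset ℕ) = {a, a + c, a + c + 1, b} := by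
      ext z
      simp only [Finset.mem_insert, Finset.mem_singleton]
      tauto
    have e2 : ({a, a + c + 1, a + c, b + 1} : Finset ℕ) = {a, a + c, a + c + 1, b + 1} := by
      ext z
      simp only [Finset.mem_insert, Finset.mem_singleton]
      tauto
    have e3 : ({a, a + c + 1, b, b + 1} : Finset ℕ) = {a + 0, a + (c + 1), b + 0, b + 0 + 1} := rfl
    rw [e1, e2, e3]
    simp only [X, Set.mem_ofPred_eq]
    rw [low_succ (y := 0), low_zero]
    tauto
  · intro T
    have e1 : ({a, a + c, b, b + 1} : Finset ℕ) = {a + 0, a + c, b + 0, b + 0 + 1} := rfl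
    have e2 : ({a + c + 1, a + c, b, b + 1} : Finset ℕ) = {a + c, a + (c + 1), b + 0, b + 0 + 1} := by
      ext z
      simp only [Finset.mem_insert, Finset.mem_singleton, add_zero, ← add_assoc]
      tauto
    rw [e1, e2]
    simp only [S, Set.mem_ofPred_eq]
    rw [sqs_succ hcp, col_succ (u := c) (y := 0) (by omega), col_succ (u := 0) (y := 0) (by omega)]
    tauto
  · rintro T (h | ⟨x, y, h1, h2, h3, rfl⟩ | ⟨t, h1, h2, rfl⟩ | ⟨t, h1, h2, rfl⟩ |
      ⟨h1, x, h2, rfl⟩ | ⟨h1, rfl⟩)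
    · exact (hG T h).2.1 (c + 1) (by omega) (by omega)
    all_goals
      simp only [Finset.mem_insert, Finset.mem_singleton]
      omega
  · rintro T (h | ⟨x, y, h1, h2, h3, rfl⟩ | ⟨t, h1, h2, rfl⟩ | ⟨t, h1, h2, rfl⟩ |
      ⟨h1, x, h2, rfl⟩ | ⟨h1, rfl⟩)
    · exact fun hh => (hG T h).1 c 1 (by omega) (by omega) (by omega) (by omega) ⟨hh.1, hh.2.2⟩
    all_goals
      simp only [Finset.mem_insert, Finset.mem_singleton]
      omega

private theorem mid_flip {n a b p q c y : ℕ} {G : Set (Finset ℕ)} (hq : 2 ≤ q)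
    (hM : a + p < b) (hn : b + q < n) (hG : Aw G a b p q) (hc : 1 ≤ c) (hcp : c < p)
    (hy : 1 ≤ y) (hyq : y < q) :
    Step2 n (cl (X G a b p q c y)) (cl (X G a b p q c (y + 1))) := by
  refine (step23 (F0 := {T | T ∈ G ∨ sqs a b p q (c + 1) T ∨ col a b q c (c + 1) (y + 1) T ∨
    col a b q 0 c (y + 1) T ∨ low a b 0 (c + 1) y T ∨ T = {a, a + c, a + c + 1, b} ∨
    top a b q c T ∨ tp a b q c T}) (x1 := a + c) (x2 := b + y)
    (y1 := a) (y2 := a + c + 1) (y3 := b + y + 1) (by omega) (by omega) (by omega) (by omega)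
    (by omega) (by omega) (by omega) (by omega) (by omega) (by omega) (by omega) (by omega)
    (by omega) (by omega) (by omega) ?_ ?_ ?_ ?_).1
  · intro T
    have e1 : ({a + c, b + y, a, a + c + 1} : Finset ℕ) = {a, a + c, a + c + 1, b + y} := by
      ext z
      simp only [Finset.mem_insert, Finset.mem_singleton]
      tauto
    have e2 : ({a + c, b + y, a, b + y + 1} : Finset ℕ) = {a + 0, a + c, b + y, b + y + 1} := by
      ext z
      simp only [Finset.mem_insert, Finset.mem_singleton, add_zero]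
      tauto
    have e3 : ({a + c, b + y, a + c + 1, b + y + 1} : Finset ℕ) =
        {a + c, a + (c + 1), b + y, b + y + 1} := by
      ext z
      simp only [Finset.mem_insert, Finset.mem_singleton, ← add_assoc]
      tauto
    rw [e1, e2, e3]
    simp only [X, Set.mem_ofPred_eq]
    rw [col_succ (u := c) (y := y) hyq, col_succ (u := 0) (y := y) hyq]
    tauto
  · intro T
    have e1 : ({a + c, a, a + c + 1, b + y + 1} : Finset ℕ) =
        {a, a + c, a + c + 1, b + (y + 1)} := by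
      ext z
      simp only [Finset.mem_insert, Finset.mem_singleton, ← add_assoc]
      tauto
    have e2 : ({b + y, a, a + c + 1, b + y + 1} : Finset ℕ) =
        {a + 0, a + (c + 1), b + y, b + y + 1} := by
      ext z
      simp only [Finset.mem_insert, Finset.mem_singleton, add_zero, ← add_assoc]
      tauto
    rw [e1, e2]
    simp only [X, Set.mem_ofPred_eq]
    rw [low_succ]
    tauto
  · rintro T (h | ⟨x, y, h1, h2, h3, rfl⟩ | ⟨t, h1, h2, rfl⟩ | ⟨t, h1, h2, rfl⟩ |
      ⟨t, h1, rfl⟩ | rfl | ⟨h1, x, h2, rfl⟩ | ⟨h1, rfl⟩)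
    · exact (hG T h).1 c y (by omega) (by omega) (by omega) (by omega)
    all_goals
      simp only [Finset.mem_insert, Finset.mem_singleton]
      omega
  · rintro T (h | ⟨x, y, h1, h2, h3, rfl⟩ | ⟨t, h1, h2, rfl⟩ | ⟨t, h1, h2, rfl⟩ |
      ⟨t, h1, rfl⟩ | rfl | ⟨h1, x, h2, rfl⟩ | ⟨h1, rfl⟩)
    · exact fun hh => (hG T h).2.1 (c + 1) (by omega) (by omega) ⟨hh.1, hh.2.1⟩
    all_goals
      simp only [Finset.mem_insert, Finset.mem_singleton]
      omega

private theorem last_flip {n a b p q c : ℕ} {G : Set (Finset ℕ)} (hq : 2 ≤ q)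
    (hM : a + p < b) (hn : b + q < n) (hG : Aw G a b p q) (hc : 1 ≤ c) (hcp : c < p) :
    Step2 n (cl (X G a b p q c q)) (cl (S G a b p q (c + 1))) := by
  rcases Nat.lt_or_ge c 2 with hc2 | hc2
  · obtain rfl : c = 1 := by omega
    refine (step23 (F0 := {T | T ∈ G ∨ sqs a b p q (1 + 1) T ∨ col a b q 0 (1 + 1) 0 T})
      (x1 := b) (x2 := b + q) (y1 := a) (y2 := a + 1) (y3 := a + 1 + 1) (by omega) (by omega)
      (by omega) (by omega) (by omega) (by omega) (by omega) (by omega) (by omega) (by omega)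
      (by omega) (by omega) (by omega) (by omega) (by omega) ?_ ?_ ?_ ?_).2
    · intro T
      have e1 : ({b, b + q, a, a + 1} : Finset ℕ) = {a + 0, a + 0 + 1, b, b + q} := by
        ext z
        simp only [Finset.mem_insert, Finset.mem_singleton, add_zero]
        tauto
      have e2 : ({b, b + q, a, a + 1 + 1} : Finset ℕ) = {a, a + (1 + 1), b, b + q} := by
        ext z
        simp only [Finset.mem_insert, Finset.mem_singleton, ← add_assoc]
        tauto
      have e3 : ({b, b + q, a + 1, a + 1 + 1} : Finset ℕ) = {a + 1, a + 1 + 1, b, b + q} := by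
        ext z
        simp only [Finset.mem_insert, Finset.mem_singleton]
        tauto
      rw [e1, e2, e3]
      simp only [S, Set.mem_ofPred_eq, top, tp]
      constructor
      · rintro (h | h | h | ⟨-, x, hx, h⟩ | h)
        · tauto
        · tauto
        · tauto
        · have hx2 : x = 0 ∨ x = 1 := by omega
          rcases hx2 with rfl | rfl
          · tauto
          · tauto
        · tauto
      · rintro ((h | h | h) | h | h | h)
        · tauto
        · tauto
        · tauto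
        · exact Or.inr (Or.inr (Or.inr (Or.inl ⟨le_refl _, 0, by omega, h⟩)))
        · exact Or.inr (Or.inr (Or.inr (Or.inr ⟨le_refl _, h⟩)))
        · exact Or.inr (Or.inr (Or.inr (Or.inl ⟨le_refl _, 1, by omega, h⟩)))
    · intro T
      have e1 : ({b, a, a + 1, a + 1 + 1} : Finset ℕ) = {a, a + 1, a + 1 + 1, b} := by
        ext z
        simp only [Finset.mem_insert, Finset.mem_singleton]
        tauto
      have e2 : ({b + q, a, a + 1, a + 1 + 1} : Finset ℕ) = {a, a + 1, a + 1 + 1, b + q} := by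
        ext z
        simp only [Finset.mem_insert, Finset.mem_singleton]
        tauto
      rw [e1, e2]
      simp only [X, Set.mem_ofPred_eq]
      rw [col_last, col_last, low_col]
      have k1 : ¬ top a b q 1 T := fun h => absurd h.1 (by omega)
      have k2 : ¬ tp a b q 1 T := fun h => absurd h.1 (by omega)
      tauto
    · rintro T (h | ⟨x, y, h1, h2, h3, rfl⟩ | ⟨t, h1, h2, rfl⟩)
      · exact (hG T h).2.2
      all_goals
        simp only [Finset.mem_insert, Finset.mem_singleton]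
        omega
    · rintro T (h | ⟨x, y, h1, h2, h3, rfl⟩ | ⟨t, h1, h2, rfl⟩)
      · exact fun hh => (hG T h).2.1 2 (by omega) (by omega) ⟨hh.1, hh.2.2⟩
      all_goals
        simp only [Finset.mem_insert, Finset.mem_singleton]
        omega
  · refine (step23 (F0 := {T | T ∈ G ∨ sqs a b p q (c + 1) T ∨ col a b q 0 (c + 1) 0 T ∨
      top a b q c T})
      (x1 := a) (x2 := a + c) (y1 := a + c + 1) (y2 := b) (y3 := b + q) (by omega) (by omega)
      (by omega) (by omega) (by omega) (by omega) (by omega) (by omega) (by omega) (by omega)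
      (by omega) (by omega) (by omega) (by omega) (by omega) ?_ ?_ ?_ ?_).1
    · intro T
      simp only [X, Set.mem_ofPred_eq]
      rw [col_last, col_last, low_col]
      have k2 : tp a b q c T ↔ T = {a, a + c, b, b + q} :=
        ⟨fun h => h.2, fun h => ⟨hc2, h⟩⟩
      rw [k2]
      tauto
    · intro T
      simp only [S, Set.mem_ofPred_eq]
      have k1 : top a b q (c + 1) T ↔ top a b q c T ∨ T = {a + c, a + c + 1, b, b + q} := by
        constructor
        · rintro ⟨-, x, hx, rfl⟩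
          by_cases h : x = c
          · subst h
            exact Or.inr rfl
          · exact Or.inl ⟨hc2, x, by omega, rfl⟩
        · rintro (⟨-, x, hx, rfl⟩ | rfl)
          · exact ⟨by omega, x, by omega, rfl⟩
          · exact ⟨by omega, c, by omega, rfl⟩
      have k2 : tp a b q (c + 1) T ↔ T = {a, a + c + 1, b, b + q} :=
        ⟨fun h => h.2, fun h => ⟨by omega, h⟩⟩
      rw [k1, k2]
      tauto
    · rintro T (h | ⟨x, y, h1, h2, h3, rfl⟩ | ⟨t, h1, h2, rfl⟩ | ⟨h1, x, h2, rfl⟩)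
      · exact (hG T h).2.1 c (by omega) (by omega)
      all_goals
        simp only [Finset.mem_insert, Finset.mem_singleton]
        omega
    · rintro T (h | ⟨x, y, h1, h2, h3, rfl⟩ | ⟨t, h1, h2, rfl⟩ | ⟨h1, x, h2, rfl⟩)
      · exact fun hh => (hG T h).2.2 ⟨hh.2.1, hh.2.2⟩
      all_goals
        simp only [Finset.mem_insert, Finset.mem_singleton]
        omega

private theorem mid_chain {n a b p q c : ℕ} {G : Set (Finset ℕ)} (hq : 2 ≤ q)
    (hM : a + p < b) (hn : b + q < n) (hG : Aw G a b p q) (hc : 1 ≤ c) (hcp : c < p) :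
    ∀ y, 1 ≤ y → y ≤ q →
      Relation.ReflTransGen (Step2 n) (cl (X G a b p q c 1)) (cl (X G a b p q c y)) := by
  intro y hy
  induction y, hy using Nat.le_induction with
  | base => exact fun _ => Relation.ReflTransGen.refl
  | succ y hy ih =>
    intro hyq
    exact (ih (by omega)).tail (mid_flip hq hM hn hG hc hcp hy (by omega))

private theorem S_chain {n a b p q : ℕ} {G : Set (Finset ℕ)} (hq : 2 ≤ q)
    (hM : a + p < b) (hn : b + q < n) (hG : Aw G a b p q) :
    ∀ c, 1 ≤ c → c ≤ p →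
      Relation.ReflTransGen (Step2 n) (cl (S G a b p q 1)) (cl (S G a b p q c)) := by
  intro c hc
  induction c, hc using Nat.le_induction with
  | base => exact fun _ => Relation.ReflTransGen.refl
  | succ c hc ih =>
    intro hcp
    exact (((ih (by omega)).tail (first_flip hq hM hn hG hc (by omega))).trans
      (mid_chain hq hM hn hG hc (by omega) q (by omega) (le_refl _))).tail
      (last_flip hq hM hn hG hc (by omega))

/-- The block of unit squares can be replaced by the complementary ball by bistellar flips.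

Plan (checked by computer for all `p, q ≤ 7`; write `a x = r.i + x`, `b y = M + r.j + y`).
For `1 ≤ c ≤ p` let `S c` be the family
  `G`, the squares `sq M (r.i + x) (r.j + y)` with `c ≤ x < p`, `y < q`, the sets
  `{a 0, a c, b y, b (y + 1)}`, `y < q`, and if `2 ≤ c` also `{a x, a (x + 1), b 0, b q}`, `x < c`,
  and `{a 0, a c, b 0, b q}`.
Then `S 1 = G ∪ blk M r` and `S p = G ∪ cb M r`. From `S c` to `S (c + 1)` (`1 ≤ c < p`), with
`v = a c`, `w = a (c + 1)`:
  first flip `A = {v, b 0, b 1}`, `B = {a 0, w}`;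
  for `1 ≤ y < q` the flip `A = {v, b y}`, `B = {a 0, w, b (y + 1)}`;
  last flip, `c = 1`: `A = {a 0, v, w}`, `B = {b 0, b q}`;
  last flip, `2 ≤ c`: `A = {a 0, v}`, `B = {w, b 0, b q}`.
After the first flip and the flips with index `< y` (`1 ≤ y ≤ q`) the family is
  `X c y` = `G`, the squares with `c + 1 ≤ x < p`; `{v, w, b t, b (t + 1)}` and
  `{a 0, v, b t, b (t + 1)}` for `y ≤ t < q`; `{a 0, w, b t, b (t + 1)}` for `t < y`;
  `{a 0, v, w, b 0}`, `{a 0, v, w, b y}`; and if `2 ≤ c` also `{a x, a (x + 1), b 0, b q}`,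
  `x < c`, and `{a 0, a c, b 0, b q}`.
Use `exchange_of_facets` with `L = {∅}`; `Away` shows that no facet of `G` contains `A` or `B`
(every `A` and every `B` contains one of the pairs excluded there). -/
theorem local_chain {n M : ℕ} {r : Rect} {G : Set (Finset ℕ)} (hp : 2 ≤ r.p) (hq : 2 ≤ r.q)
    (hM : r.i + r.p < M) (hn : M + r.j + r.q < n) (hG : Away M r G) :
    Relation.ReflTransGen (Step2 n) (cl (G ∪ blk M r)) (cl (G ∪ cb M r)) := by
  have h := S_chain (n := n) (a := r.i) (b := M + r.j) (p := r.p) (q := r.q) (G := G) hq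
    (by omega) hn hG r.p (by omega) (le_refl _)
  have e1 : S G r.i (M + r.j) r.p r.q 1 = G ∪ blk M r := by
    ext T
    simp only [S, Set.mem_ofPred_eq, Set.mem_union, blk, cov, sq]
    constructor
    · rintro (h | ⟨x, y, h1, h2, h3, rfl⟩ | ⟨t, h1, h2, rfl⟩ | ⟨h1, x, h2, rfl⟩ | ⟨h1, rfl⟩)
      · exact Or.inl h
      · exact Or.inr ⟨r.i + x, r.j + y, ⟨by omega, by omega, by omega, by omega⟩, by
          rw [← add_assoc M]⟩
      · exact Or.inr ⟨r.i, r.j + t, ⟨by omega, by omega, by omega, by omega⟩, by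
          rw [← add_assoc M]; rfl⟩
      · omega
      · omega
    · rintro (h | ⟨x, y, ⟨h1, h2, h3, h4⟩, rfl⟩)
      · exact Or.inl h
      · obtain ⟨x', rfl⟩ := Nat.exists_eq_add_of_le h1
        obtain ⟨y', rfl⟩ := Nat.exists_eq_add_of_le h3
        rcases Nat.eq_zero_or_pos x' with rfl | hx
        · exact Or.inr (Or.inr (Or.inl ⟨y', Nat.zero_le _, by omega, by
            rw [← add_assoc M]⟩))
        · exact Or.inr (Or.inl ⟨x', y', by omega, by omega, by omega, by
            rw [← add_assoc M]⟩)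
  have e2 : S G r.i (M + r.j) r.p r.q r.p = G ∪ cb M r := by
    ext T
    simp only [S, Set.mem_ofPred_eq, Set.mem_union, cb]
    constructor
    · rintro (h | ⟨x, y, h1, h2, h3, rfl⟩ | ⟨t, h1, h2, rfl⟩ | ⟨h1, x, h2, rfl⟩ | ⟨h1, rfl⟩)
      · exact Or.inl h
      · omega
      · exact Or.inr (Or.inl ⟨t, h2, rfl⟩)
      · exact Or.inr (Or.inr (Or.inl ⟨x, h2, rfl⟩))
      · exact Or.inr (Or.inr (Or.inr rfl))
    · rintro (h | ⟨k, hk, rfl⟩ | ⟨k, hk, rfl⟩ | rfl)
      · exact Or.inl h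
      · exact Or.inr (Or.inr (Or.inl ⟨k, Nat.zero_le _, hk, rfl⟩))
      · exact Or.inr (Or.inr (Or.inr (Or.inl ⟨hp, k, hk, rfl⟩)))
      · exact Or.inr (Or.inr (Or.inr (Or.inr ⟨hp, rfl⟩)))
  rwa [e1, e2] at h

end Pool.Agent.H94.NP
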