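import Pool.Agent.H94.NP.Facets

namespace Pool.Agent.H94.NP

open Finset Pool.Agent.H12.Ball

theorem rel_of_good {A B : ℕ} {R : List Rect} (h : GoodList A B R) {r s : Rect} (hr : r ∈ R)
    (hs : s ∈ R) : r = s ∨ Rel r s ∨ Rel s r := by
  have key : R.Pairwise (fun r s => r = s ∨ Rel r s ∨ Rel s r) :=
    h.2.imp fun h1 => Or.inr (Or.inl h1)
  have : Std.Symm (fun r s : Rect => r = s ∨ Rel r s ∨ Rel s r) := by
    refine ⟨fun x y hxy => ?_⟩
    rcases hxy with hxy | hxy | hxy
    · exact Or.inl hxy.symm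
    · exact Or.inr (Or.inr hxy)
    · exact Or.inr (Or.inl hxy)
  exact List.Pairwise.forall_of_forall (R := fun r s : Rect => r = s ∨ Rel r s ∨ Rel s r)
    (fun x _ => Or.inl rfl) key hr hs

private lemma cells_card4 {a b c d : ℕ} (h1 : a < b) (h2 : b < c) (h3 : c < d) :
    ({a, b, c, d} : Finset ℕ).card = 4 := by
  rw [Finset.card_insert_of_notMem, Finset.card_insert_of_notMem, Finset.card_insert_of_notMem,
    Finset.card_singleton]
  · simp only [Finset.mem_singleton]
    omega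
  · simp only [Finset.mem_insert, Finset.mem_singleton]
    omega
  · simp only [Finset.mem_insert, Finset.mem_singleton]
    omega

theorem fac_card {A B : ℕ} {R : List Rect} (h : GoodList A B R) {T : Finset ℕ}
    (hT : T ∈ fac A B R) : T.card = 4 := by
  rcases hT with ⟨i, hi, j, hj, _, rfl⟩ | ⟨r, hr, hT⟩
  · exact cells_card4 (by omega) (by omega) (by omega)
  · obtain ⟨h1, h2, h3, h4⟩ := h.1 r hr
    rcases hT with ⟨k, hk, rfl⟩ | ⟨k, hk, rfl⟩ | rfl
    · exact cells_card4 (by omega) (by omega) (by omega)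
    · exact cells_card4 (by omega) (by omega) (by omega)
    · exact cells_card4 (by omega) (by omega) (by omega)

theorem fac_lt {A B : ℕ} {R : List Rect} (h : GoodList A B R) {σ : Finset ℕ}
    (hσ : σ ∈ cl (fac A B R)) : ∀ v ∈ σ, v < A + B + 2 := by
  obtain ⟨T, hT, hσT⟩ := hσ
  intro v hv
  have hvT := hσT hv
  rcases hT with ⟨i, hi, j, hj, _, rfl⟩ | ⟨r, hr, hT⟩
  · simp only [sq, Finset.mem_insert, Finset.mem_singleton] at hvT
    omega
  · obtain ⟨h1, h2, h3, h4⟩ := h.1 r hr
    rcases hT with ⟨k, hk, rfl⟩ | ⟨k, hk, rfl⟩ | rfl <;>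
    · simp only [Finset.mem_insert, Finset.mem_singleton] at hvT
      omega

/-- The tetrahedra that contain the edge `{r.i, r.i + r.p}`. -/
theorem mem_cb_of_alpha {A B : ℕ} {R : List Rect} (h : GoodList A B R) {r : Rect} (hr : r ∈ R)
    {T : Finset ℕ} (hT : T ∈ fac A B R) (h1 : r.i ∈ T) (h2 : r.i + r.p ∈ T) :
    T = {r.i, r.i + r.p, A + 1 + r.j, A + 1 + r.j + r.q} ∨
      ∃ k < r.q, T = {r.i, r.i + r.p, A + 1 + r.j + k, A + 1 + r.j + k + 1} := by
  obtain ⟨g1, g2, g3, g4⟩ := h.1 r hr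
  rcases hT with ⟨i, hi, j, hj, _, rfl⟩ | ⟨s, hs, hT⟩
  · simp only [sq, Finset.mem_insert, Finset.mem_singleton] at h1 h2
    omega
  · obtain ⟨f1, f2, f3, f4⟩ := h.1 s hs
    have hrs : r.i = s.i → r.p = s.p → r = s := by
      intro e1 e2
      rcases rel_of_good h hr hs with h3 | h3 | h3
      · exact h3
      · have := h3.2.1 e1
        omega
      · have := h3.2.1 e1.symm
        omega
    rcases hT with ⟨k, hk, rfl⟩ | ⟨k, hk, rfl⟩ | rfl
    · simp only [Finset.mem_insert, Finset.mem_singleton] at h1 h2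
      obtain rfl := hrs (by omega) (by omega)
      exact Or.inr ⟨k, hk, rfl⟩
    · simp only [Finset.mem_insert, Finset.mem_singleton] at h1 h2
      omega
    · simp only [Finset.mem_insert, Finset.mem_singleton] at h1 h2
      obtain rfl := hrs (by omega) (by omega)
      exact Or.inl rfl

/-- The tetrahedra that contain the edge `{b r.j, b (r.j + r.q)}`. -/
theorem mem_cb_of_beta {A B : ℕ} {R : List Rect} (h : GoodList A B R) {r : Rect} (hr : r ∈ R)
    {T : Finset ℕ} (hT : T ∈ fac A B R) (h1 : A + 1 + r.j ∈ T) (h2 : A + 1 + r.j + r.q ∈ T) :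
    T = {r.i, r.i + r.p, A + 1 + r.j, A + 1 + r.j + r.q} ∨
      ∃ k < r.p, T = {r.i + k, r.i + k + 1, A + 1 + r.j, A + 1 + r.j + r.q} := by
  obtain ⟨g1, g2, g3, g4⟩ := h.1 r hr
  rcases hT with ⟨i, hi, j, hj, _, rfl⟩ | ⟨s, hs, hT⟩
  · simp only [sq, Finset.mem_insert, Finset.mem_singleton] at h1 h2
    omega
  · obtain ⟨f1, f2, f3, f4⟩ := h.1 s hs
    have hrs : r.j = s.j → r.q = s.q → r = s := by
      intro e1 e2
      rcases rel_of_good h hr hs with h3 | h3 | h3
      · exact h3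
      · exact absurd e2 (h3.2.2 e1)
      · exact absurd e2.symm (h3.2.2 e1.symm)
    rcases hT with ⟨k, hk, rfl⟩ | ⟨k, hk, rfl⟩ | rfl
    · simp only [Finset.mem_insert, Finset.mem_singleton] at h1 h2
      omega
    · simp only [Finset.mem_insert, Finset.mem_singleton] at h1 h2
      obtain rfl := hrs (by omega) (by omega)
      exact Or.inr ⟨k, hk, rfl⟩
    · simp only [Finset.mem_insert, Finset.mem_singleton] at h1 h2
      obtain rfl := hrs (by omega) (by omega)
      exact Or.inl rfl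

end Pool.Agent.H94.NP
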