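import Pool.Agent.H94.NP.Links

namespace Pool.Agent.H94.NP

open Finset Pool.Agent.H12.Ball

private theorem sd_iff {V : Type*} [DecidableEq V] {A B C : Finset V} :
    A \ B ⊆ C ↔ A ⊆ C ∪ B := by
  constructor
  · intro h v hv
    by_cases h2 : v ∈ B
    · exact Finset.mem_union_right _ h2
    · exact Finset.mem_union_left _ (h (Finset.mem_sdiff.2 ⟨hv, h2⟩))
  · intro h v hv
    rw [Finset.mem_sdiff] at hv
    rcases Finset.mem_union.1 (h hv.1) with h3 | h3
    · exact h3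
    · exact absurd h3 hv.2

private theorem cone_disj {n j : ℕ} {A : Finset ℕ} (h : ∀ v ∈ A, v < n) :
    Disjoint A (Finset.Ico n (n + j)) := by
  rw [Finset.disjoint_left]
  intro v hv h2
  rw [Finset.mem_Ico] at h2
  have := h v hv
  omega

private theorem cone_sub {n j : ℕ} {A σ : Finset ℕ} (h : ∀ v ∈ A, v < n) :
    A ⊆ σ \ Finset.Ico n (n + j) ↔ A ⊆ σ := by
  rw [Finset.subset_sdiff]
  exact ⟨fun h => h.1, fun h2 => ⟨h2, cone_disj h⟩⟩

private theorem cone_ex {n j : ℕ} {Δ Δ' : Set (Finset ℕ)} {A B : Finset ℕ}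
    (h : Exchange Δ Δ' A B) (hA : ∀ v ∈ A, v < n) (hB : ∀ v ∈ B, v < n) :
    ∀ σ ∈ coneN n j Δ, A ⊆ σ → ∀ a ∈ A, σ.erase a ∪ B ∈ coneN n j Δ' := by
  intro σ hσ hAσ a ha
  have h2 := h.h2 _ hσ ((cone_sub hA).2 hAσ) a ha
  show (σ.erase a ∪ B) \ Finset.Ico n (n + j) ∈ Δ'
  have e : (σ.erase a ∪ B) \ Finset.Ico n (n + j) =
      (σ \ Finset.Ico n (n + j)).erase a ∪ B := by
    ext v
    simp only [Finset.mem_sdiff, Finset.mem_union, Finset.mem_erase, Finset.mem_Ico]
    constructor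
    · rintro ⟨h | h, h2⟩
      · exact Or.inl ⟨h.1, h.2, h2⟩
      · exact Or.inr h
    · rintro (h | h)
      · exact ⟨Or.inl ⟨h.1, h.2.1⟩, h.2.2⟩
      · refine ⟨Or.inr h, fun h3 => ?_⟩
        have := hB v h
        omega
  rw [e]
  exact h2

/-- Coning an exchange. -/
theorem cone_step1 {n j : ℕ} {Δ Δ' : Set (Finset ℕ)} (h : Step1 n Δ Δ') :
    Step1 (n + j) (coneN n j Δ) (coneN n j Δ') := by
  obtain ⟨A, B, hE, hA, hB⟩ := h
  refine ⟨A, B, ⟨hE.neA, hE.neB, hE.disj, ?_, ?_, ?_, ?_, ?_, ?_, cone_ex hE hA hB,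
    cone_ex hE.symm hB hA⟩, fun v hv => ?_, fun v hv => ?_⟩
  · intro σ hσ τ hτ
    exact hE.down _ hσ _ (Finset.sdiff_subset_sdiff hτ (Finset.Subset.refl _))
  · intro σ hσ τ hτ
    exact hE.down' _ hσ _ (Finset.sdiff_subset_sdiff hτ (Finset.Subset.refl _))
  · intro σ hσ h
    exact hE.hB _ hσ ((cone_sub hB).2 h)
  · intro σ hσ h
    exact hE.hA _ hσ ((cone_sub hA).2 h)
  · intro σ hσ h
    exact hE.h1 _ hσ fun h3 => h ((cone_sub hA).1 h3)
  · intro σ hσ h
    exact hE.h1' _ hσ fun h3 => h ((cone_sub hB).1 h3)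
  · have := hA v hv
    omega
  · have := hB v hv
    omega

private def coneK (n j : ℕ) : Finset (Fin (n + j)) := Finset.univ.filter fun v => n ≤ v.val

private theorem mem_coneK {n j : ℕ} {v : Fin (n + j)} : v ∈ coneK n j ↔ n ≤ v.val := by
  simp [coneK]

private theorem coneK_map (n j : ℕ) :
    (coneK n j).map Fin.valEmbedding = Finset.Ico n (n + j) := by
  ext v
  simp only [Finset.mem_map, mem_coneK, Fin.valEmbedding_apply, Finset.mem_Ico]
  constructor
  · rintro ⟨a, ha, rfl⟩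
    exact ⟨ha, a.2⟩
  · rintro ⟨h1, h2⟩
    exact ⟨⟨v, h2⟩, h1, rfl⟩

private theorem coneK_card (n j : ℕ) : (coneK n j).card = j := by
  have h := congrArg Finset.card (coneK_map n j)
  rw [Finset.card_map, Nat.card_Ico] at h
  omega

private theorem mem_rs_cone {n j : ℕ} {Δ : Set (Finset ℕ)} {σ : Finset (Fin (n + j))} :
    σ ∈ rs (n + j) (coneN n j Δ) ↔ σ \ coneK n j ∈ rs (n + j) Δ := by
  show σ.map Fin.valEmbedding \ Finset.Ico n (n + j) ∈ Δ ↔
    (σ \ coneK n j).map Fin.valEmbedding ∈ Δ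
  rw [← coneK_map, Finset.map_sdiff]

private theorem rs_disj {n j : ℕ} {Δ : Set (Finset ℕ)} (hn : ∀ σ ∈ Δ, ∀ v ∈ σ, v < n)
    {σ : Finset (Fin (n + j))} (hσ : σ ∈ rs (n + j) Δ) : Disjoint σ (coneK n j) := by
  rw [Finset.disjoint_left]
  intro v hv h2
  rw [mem_coneK] at h2
  have h3 := hn _ hσ v.val (Finset.mem_map_of_mem _ hv)
  omega

private theorem rs_cone_down {n j : ℕ} {Δ : Set (Finset ℕ)} (hd : Down Δ) :
    Down (rs (n + j) (coneN n j Δ)) := by
  intro σ hσ τ hτ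
  exact hd _ hσ _ (Finset.sdiff_subset_sdiff (Finset.map_subset_map.2 hτ)
    (Finset.Subset.refl _))

private theorem link_rs_cone {n j : ℕ} {Δ : Set (Finset ℕ)} (hn : ∀ σ ∈ Δ, ∀ v ∈ σ, v < n)
    {σ : Finset (Fin (n + j))} (hK : coneK n j ⊆ σ) :
    link (rs (n + j) (coneN n j Δ)) σ = link (rs (n + j) Δ) (σ \ coneK n j) := by
  ext τ
  constructor
  · rintro ⟨h1, h2, h3⟩
    rw [mem_rs_cone] at h1 h2
    have h4 : Disjoint τ (coneK n j) := Finset.disjoint_of_subset_right hK h3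
    rw [Finset.union_sdiff_distrib, Finset.sdiff_eq_self_of_disjoint h4] at h2
    rw [Finset.sdiff_eq_self_of_disjoint h4] at h1
    exact ⟨h1, h2, Finset.disjoint_of_subset_right Finset.sdiff_subset h3⟩
  · rintro ⟨h1, h2, h3⟩
    have h4 : Disjoint τ (coneK n j) := rs_disj hn h1
    refine ⟨?_, ?_, ?_⟩
    · rw [mem_rs_cone, Finset.sdiff_eq_self_of_disjoint h4]
      exact h1
    · rw [mem_rs_cone, Finset.union_sdiff_distrib, Finset.sdiff_eq_self_of_disjoint h4]
      exact h2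
    · rw [← Finset.sdiff_union_of_subset hK, Finset.disjoint_union_right]
      exact ⟨h3, h4⟩

theorem cone_kfold {n j : ℕ} {𝕜 : Type*} [Field 𝕜] {Δ : Set (Finset ℕ)} (hd : Down Δ)
    (hn : ∀ σ ∈ Δ, ∀ v ∈ σ, v < n) (h0 : Acyclic 𝕜 (rs (n + j) Δ))
    (h1 : ∀ v : Fin (n + j), Acyclic 𝕜 (link (rs (n + j) Δ) {v})) :
    KFoldAcyclic 𝕜 (j + 2) (rs (n + j) (coneN n j Δ)) := by
  intro σ _ hc
  by_cases hz : ∃ z ∈ coneK n j, z ∉ σ
  · obtain ⟨z, hz, hzσ⟩ := hz
    have hdl := link_down (rs_cone_down (n := n) (j := j) hd) σ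
    refine (void_cone hdl z ?_).acyclic hdl
    rintro τ ⟨h2, h3, h4⟩
    rw [mem_rs_cone] at h2 h3
    refine ⟨?_, ?_, ?_⟩
    · rw [mem_rs_cone, Finset.insert_sdiff_of_mem _ hz]
      exact h2
    · rw [mem_rs_cone, Finset.insert_union, Finset.insert_sdiff_of_mem _ hz]
      exact h3
    · rw [Finset.disjoint_insert_left]
      exact ⟨hzσ, h4⟩
  · push Not at hz
    have hK : coneK n j ⊆ σ := hz
    rw [link_rs_cone hn hK]
    have h2 : (σ \ coneK n j).card = σ.card - j := by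
      rw [Finset.card_sdiff_of_subset hK, coneK_card]
    have h3 : (σ \ coneK n j).card = 0 ∨ (σ \ coneK n j).card = 1 := by omega
    rcases h3 with h3 | h3
    · rw [Finset.card_eq_zero] at h3
      rw [h3, link_empty]
      exact h0
    · obtain ⟨v, hv⟩ := Finset.card_eq_one.1 h3
      rw [hv]
      exact h1 v

private theorem lift_set {n j : ℕ} {σ : Finset ℕ} (h : ∀ v ∈ σ, v < n) :
    ∃ s : Finset (Fin (n + j)), s.map Fin.valEmbedding = σ := by
  refine ⟨Finset.univ.filter fun v => v.val ∈ σ, ?_⟩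
  ext v
  simp only [Finset.mem_map, Finset.mem_filter, Finset.mem_univ, true_and,
    Fin.valEmbedding_apply]
  constructor
  · rintro ⟨a, ha, rfl⟩
    exact ha
  · intro hv
    have := h v hv
    exact ⟨⟨v, by omega⟩, hv, rfl⟩

/-- The cone over a simplex with four vertices is a ball. -/
theorem cone_simplex_ball {n j : ℕ} {T : Finset ℕ} (hT : T.card = 4) (hn : ∀ v ∈ T, v < n) :
    Nonempty (realization (rs (n + j) (coneN n j (cl {T}))) ≃ₜ
      Metric.closedBall (0 : EuclideanSpace ℝ (Fin (j + 3))) 1) := by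
  obtain ⟨s, hs⟩ := lift_set (j := j) hn
  have hsT : s ∈ rs (n + j) (cl {T}) := ⟨T, rfl, hs ▸ Finset.Subset.refl _⟩
  have hnT : ∀ σ ∈ cl {T}, ∀ v ∈ σ, v < n := by
    rintro σ ⟨T', rfl, h⟩ v hv
    exact hn v (h hv)
  have hdis : Disjoint s (coneK n j) := rs_disj hnT hsT
  have hF : rs (n + j) (coneN n j (cl {T})) = simplex (s ∪ coneK n j) := by
    ext σ
    rw [mem_rs_cone]
    constructor
    · rintro ⟨T', rfl, h⟩
      rw [← hs, Finset.map_subset_map, sd_iff] at h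
      exact h
    · intro h
      refine ⟨T, rfl, ?_⟩
      rw [← hs, Finset.map_subset_map, sd_iff]
      exact h
  have hcs : s.card = 4 := by
    rw [← hT, ← hs, Finset.card_map]
  have hcard : (s ∪ coneK n j).card = j + 4 := by
    rw [Finset.card_union_of_disjoint hdis, coneK_card, hcs]
    omega
  obtain ⟨h1⟩ := cross_simplex_ball (I := Fin 0) (F := s ∪ coneK n j)
    (Finset.card_pos.1 (by omega)) (d := j + 3) (by rw [hcard, Fintype.card_fin]; omega)
  obtain ⟨h2⟩ := tr_homeo (Equiv.emptySum (Fin 0 × Bool) (Fin (n + j)))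
    (join (cross (Finset.univ : Finset (Fin 0))) (simplex (s ∪ coneK n j)))
  have h3 : tr (Equiv.emptySum (Fin 0 × Bool) (Fin (n + j)))
      (join (cross (Finset.univ : Finset (Fin 0))) (simplex (s ∪ coneK n j))) =
      simplex (s ∪ coneK n j) := by
    ext σ
    have hr : (σ.map (Equiv.emptySum (Fin 0 × Bool) (Fin (n + j))).symm.toEmbedding).toRight =
        σ := by
      ext x
      simp [Finset.mem_toRight]
    constructor
    · rintro ⟨_, h⟩
      rw [hr] at h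
      exact h
    · intro h
      refine ⟨?_, ?_⟩
      · rintro ⟨i, _⟩
        exact i.elim0
      · rw [hr]
        exact h
  rw [h3] at h2
  rw [hF]
  exact ⟨h2.trans h1⟩

/-- A partition of the cone into intervals of rank at least `j + 2` gives a partition of the base. -/
theorem cone_part {n j : ℕ} {Δ : Set (Finset ℕ)} (hd : Down Δ)
    (hn : ∀ σ ∈ Δ, ∀ v ∈ σ, v < n) {D : Set (Finset (Fin (n + j)) × Finset (Fin (n + j)))}
    (hD : IntervalPartition (j + 2) (rs (n + j) (coneN n j Δ)) D) :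
    ∃ D' : Set (Finset ℕ × Finset ℕ), Part2 Δ D' := by
  refine ⟨{q | ∃ p ∈ D, coneK n j ⊆ p.2 ∧ q = ((p.1 \ coneK n j).map Fin.valEmbedding,
    (p.2 \ coneK n j).map Fin.valEmbedding)}, ?_, ?_⟩
  · rintro q ⟨p, hp, _, rfl⟩
    obtain ⟨h1, h2, h3⟩ := hD.1 p hp
    refine ⟨Finset.map_subset_map.2 (Finset.sdiff_subset_sdiff h1 (Finset.Subset.refl _)),
      ?_, mem_rs_cone.1 h3⟩
    show 2 ≤ ((p.2 \ coneK n j).map Fin.valEmbedding \
      (p.1 \ coneK n j).map Fin.valEmbedding).card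
    rw [← Finset.map_sdiff, Finset.card_map]
    have e : (p.2 \ coneK n j) \ (p.1 \ coneK n j) = (p.2 \ p.1) \ coneK n j := by
      ext v
      simp only [Finset.mem_sdiff]
      tauto
    have h4 := Finset.le_card_sdiff (coneK n j) (p.2 \ p.1)
    rw [e]
    rw [coneK_card] at h4
    omega
  · intro σ hσ
    obtain ⟨s, hs⟩ := lift_set (j := j) (hn σ hσ)
    have hsr : s ∈ rs (n + j) Δ := by
      show s.map Fin.valEmbedding ∈ Δ
      rw [hs]
      exact hσ
    have hdis : Disjoint s (coneK n j) := rs_disj hn hsr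
    obtain ⟨p, ⟨hp, h1, h2⟩, hu⟩ := hD.2 (s ∪ coneK n j) (by
      rw [mem_rs_cone, Finset.union_sdiff_cancel_right hdis]
      exact hsr)
    refine ⟨((p.1 \ coneK n j).map Fin.valEmbedding, (p.2 \ coneK n j).map Fin.valEmbedding),
      ⟨⟨p, hp, Finset.union_subset_right h2, rfl⟩, ?_, ?_⟩, ?_⟩
    · show (p.1 \ coneK n j).map Fin.valEmbedding ⊆ σ
      rw [← hs, Finset.map_subset_map, sd_iff]
      exact h1
    · show σ ⊆ (p.2 \ coneK n j).map Fin.valEmbedding
      rw [← hs, Finset.map_subset_map, Finset.subset_sdiff]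
      exact ⟨Finset.union_subset_left h2, hdis⟩
    · rintro q ⟨⟨p', hp', hK', rfl⟩, h3, h4⟩
      have h3' : (p'.1 \ coneK n j).map Fin.valEmbedding ⊆ σ := h3
      have h4' : σ ⊆ (p'.2 \ coneK n j).map Fin.valEmbedding := h4
      rw [← hs, Finset.map_subset_map, sd_iff] at h3'
      rw [← hs, Finset.map_subset_map, Finset.subset_sdiff] at h4'
      rw [hu p' ⟨hp', h3', Finset.union_subset h4'.1 hK'⟩]

end Pool.Agent.H94.NP
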