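import Pool.Agent.H94.NP.Fan
import Pool.Agent.H94.NP.Cells

namespace Pool.Agent.H94.NP

open Finset Pool.Agent.H12.Ball

/-- The edges of the two paths. -/
def IsPathEdge (A B : ℕ) (x : Finset ℕ) : Prop :=
  (∃ i < A, x = {i, i + 1}) ∨ ∃ j < B, x = {A + 1 + j, A + 1 + j + 1}

private theorem cnt_card {A B : ℕ} {R : List Rect} (h : GoodList A B R) :
    ∀ σ ∈ cl (fac A B R), σ.card ≤ 4 := by
  rintro σ ⟨T, hT, hσ⟩
  rw [← fac_card h hT]
  exact Finset.card_le_card hσ

private theorem cnt_top {A B : ℕ} {R : List Rect} (h : GoodList A B R) {σ : Finset ℕ}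
    (hσ : σ ∈ cl (fac A B R)) (h4 : σ.card = 4) : σ ∈ fac A B R := by
  obtain ⟨T, hT, hσT⟩ := hσ
  have h5 := fac_card h hT
  have h6 : σ = T := Finset.eq_of_subset_of_card_le hσT (by omega)
  rw [h6]
  exact hT

private theorem cnt_perm (a b c d : ℕ) : ({a, b, c, d} : Finset ℕ) = {c, d, a, b} := by
  ext x
  simp only [Finset.mem_insert, Finset.mem_singleton]
  tauto

/-- Otherwise `fan` with `a = r.i`, `a' = r.i + r.p`, `b k = A + 1 + r.j + k` and `fan` with
`a = A + 1 + r.j`, `a' = A + 1 + r.j + r.q`, `b k = r.i + k` give two different bottoms of the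
tetrahedron `{r.i, r.i + r.p, A + 1 + r.j, A + 1 + r.j + r.q}`. -/
theorem claim {A B : ℕ} {R : List Rect} (h : GoodList A B R) {D : Set (Finset ℕ × Finset ℕ)}
    (hD : Part2 (cl (fac A B R)) D) {r : Rect} (hr : r ∈ R) :
    ∃ p ∈ D, ((r.i ∈ p.2 ∧ r.i + r.p ∈ p.2) ∨
        (A + 1 + r.j ∈ p.2 ∧ A + 1 + r.j + r.q ∈ p.2)) ∧
      (p.1.card ≤ 1 ∨ IsPathEdge A B p.1) := by
  by_contra hcon
  push Not at hcon
  obtain ⟨f1, f2, f3, f4⟩ := h.1 r hr
  have hz : ({r.i, r.i + r.p, A + 1 + r.j, A + 1 + r.j + r.q} : Finset ℕ) ∈ cl (fac A B R) :=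
    ⟨_, Or.inr ⟨r, hr, Or.inr (Or.inr rfl)⟩, Finset.Subset.refl _⟩
  obtain ⟨p, ⟨hp, hp1, hp2⟩, -⟩ := hD.2 _ hz
  have hzc : ({r.i, r.i + r.p, A + 1 + r.j, A + 1 + r.j + r.q} : Finset ℕ).card = 4 :=
    fac_card h (Or.inr ⟨r, hr, Or.inr (Or.inr rfl)⟩)
  have hp3 : p.2 = {r.i, r.i + r.p, A + 1 + r.j, A + 1 + r.j + r.q} := by
    symm
    apply Finset.eq_of_subset_of_card_le hp2
    rw [hzc]
    exact cnt_card h _ (hD.1 p hp).2.2
  have e1 : p.1 = {A + 1 + r.j + 0, A + 1 + r.j + r.q} := by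
    refine fan (Δ := cl (fac A B R)) (a := r.i) (a' := r.i + r.p) (q := r.q)
      (b := fun k => A + 1 + r.j + k) hD f2 (by omega) (fun k hk => ⟨by omega, by omega⟩)
      (fun k hk l hl hkl => by omega) ?_ ?_ (cl_down _) (cnt_card h) ?_ ?_ ?_ hp ?_
    · intro k hk
      exact ⟨_, Or.inr ⟨r, hr, Or.inl ⟨k, hk, rfl⟩⟩, Finset.Subset.refl _⟩
    · exact hz
    · intro σ hσ h4 ha ha'
      rcases mem_cb_of_alpha h hr (cnt_top h hσ h4) ha ha' with h5 | ⟨k, hk, h5⟩
      · exact Or.inl h5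
      · exact Or.inr ⟨k, hk, h5⟩
    · intro p' hp' ha ha'
      have := (hcon p' hp' (Or.inl ⟨ha, ha'⟩)).1
      omega
    · intro p' hp' k hk hpk heq
      refine (hcon p' hp' (Or.inl ⟨?_, ?_⟩)).2 (Or.inr ⟨r.j + k, by omega, ?_⟩)
      · rw [hpk]
        simp
      · rw [hpk]
        simp
      · rw [heq]
        simp only [Nat.add_assoc]
    · exact hp3
  have e2 : p.1 = {r.i + 0, r.i + r.p} := by
    refine fan (Δ := cl (fac A B R)) (a := A + 1 + r.j) (a' := A + 1 + r.j + r.q) (q := r.p)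
      (b := fun k => r.i + k) hD f1 (by omega) (fun k hk => ⟨by omega, by omega⟩)
      (fun k hk l hl hkl => by omega) ?_ ?_ (cl_down _) (cnt_card h) ?_ ?_ ?_ hp ?_
    · intro k hk
      refine ⟨_, Or.inr ⟨r, hr, Or.inr (Or.inl ⟨k, hk, rfl⟩)⟩, ?_⟩
      rw [cnt_perm]
      exact Finset.Subset.refl _
    · rw [cnt_perm]
      exact hz
    · intro σ hσ h4 ha ha'
      rcases mem_cb_of_beta h hr (cnt_top h hσ h4) ha ha' with h5 | ⟨k, hk, h5⟩
      · refine Or.inl ?_
        rw [h5]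
        exact cnt_perm _ _ _ _
      · refine Or.inr ⟨k, hk, ?_⟩
        rw [h5]
        exact cnt_perm _ _ _ _
    · intro p' hp' ha ha'
      have := (hcon p' hp' (Or.inr ⟨ha, ha'⟩)).1
      omega
    · intro p' hp' k hk hpk heq
      refine (hcon p' hp' (Or.inr ⟨?_, ?_⟩)).2 (Or.inl ⟨r.i + k, by omega, ?_⟩)
      · rw [hpk]
        simp
      · rw [hpk]
        simp
      · rw [heq]
        simp only [Nat.add_assoc]
    · rw [hp3]
      exact cnt_perm _ _ _ _
  have h7 : r.i + 0 ∈ ({A + 1 + r.j + 0, A + 1 + r.j + r.q} : Finset ℕ) := by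
    rw [← e1, e2]
    simp
  simp only [Finset.mem_insert, Finset.mem_singleton] at h7
  omega

private theorem cnt_sep {A B : ℕ} {R : List Rect} (h : GoodList A B R) {r s : Rect} (hr : r ∈ R)
    (hs : s ∈ R) (hrs : Rel r s) {x : Finset ℕ} (hx : x ∈ cl (fac A B R))
    (h1 : (r.i ∈ x ∧ r.i + r.p ∈ x) ∨ (A + 1 + r.j ∈ x ∧ A + 1 + r.j + r.q ∈ x))
    (h2 : (s.i ∈ x ∧ s.i + s.p ∈ x) ∨ (A + 1 + s.j ∈ x ∧ A + 1 + s.j + s.q ∈ x)) : False := by
  obtain ⟨T, hT, hxT⟩ := hx
  obtain ⟨-, r1, r2⟩ := hrs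
  obtain ⟨f1, f2, f3, f4⟩ := h.1 r hr
  obtain ⟨g1, g2, g3, g4⟩ := h.1 s hs
  have h3 : (s.i ∈ T ∧ s.i + s.p ∈ T) ∨ (A + 1 + s.j ∈ T ∧ A + 1 + s.j + s.q ∈ T) := by
    rcases h2 with ⟨a, b⟩ | ⟨a, b⟩
    · exact Or.inl ⟨hxT a, hxT b⟩
    · exact Or.inr ⟨hxT a, hxT b⟩
  rcases h1 with ⟨a, b⟩ | ⟨a, b⟩
  · rcases mem_cb_of_alpha h hr hT (hxT a) (hxT b) with h5 | ⟨k, hk, h5⟩
    · rw [h5] at h3
      simp only [Finset.mem_insert, Finset.mem_singleton] at h3
      omega
    · rw [h5] at h3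
      simp only [Finset.mem_insert, Finset.mem_singleton] at h3
      omega
  · rcases mem_cb_of_beta h hr hT (hxT a) (hxT b) with h5 | ⟨k, hk, h5⟩
    · rw [h5] at h3
      simp only [Finset.mem_insert, Finset.mem_singleton] at h3
      omega
    · rw [h5] at h3
      simp only [Finset.mem_insert, Finset.mem_singleton] at h3
      omega

/-- The bottoms of the intervals of `claim` are different for different rectangles; there are at
most `1 + (A + B + 2) + A + B` possible bottoms. -/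
theorem counting {A B : ℕ} {R : List Rect} (h : GoodList A B R)
    (hK : 2 * (A + B) + 4 ≤ R.length) (D : Set (Finset ℕ × Finset ℕ))
    (hD : Part2 (cl (fac A B R)) D) : False := by
  classical
  have hcl : ∀ i : Fin R.length, ∃ p ∈ D, (((R.get i).i ∈ p.2 ∧ (R.get i).i + (R.get i).p ∈ p.2) ∨
        (A + 1 + (R.get i).j ∈ p.2 ∧ A + 1 + (R.get i).j + (R.get i).q ∈ p.2)) ∧
      (p.1.card ≤ 1 ∨ IsPathEdge A B p.1) := fun i => claim h hD (List.get_mem R i)
  choose f hf1 hf2 hf3 using hcl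
  set S : Finset (Finset ℕ) := ((({∅} : Finset (Finset ℕ)) ∪ (Finset.range (A + B + 2)).image (fun v => {v})) ∪
    (Finset.range A).image (fun i => {i, i + 1})) ∪
    (Finset.range B).image (fun j => {A + 1 + j, A + 1 + j + 1}) with hS
  have hSc : S.card ≤ 2 * (A + B) + 3 := by
    rw [hS]
    have c1 := Finset.card_union_le ((({∅} : Finset (Finset ℕ)) ∪
      (Finset.range (A + B + 2)).image (fun v => ({v} : Finset ℕ))) ∪
      (Finset.range A).image (fun i => ({i, i + 1} : Finset ℕ)))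
      ((Finset.range B).image (fun j => ({A + 1 + j, A + 1 + j + 1} : Finset ℕ)))
    have c2 := Finset.card_union_le (({∅} : Finset (Finset ℕ)) ∪
      (Finset.range (A + B + 2)).image (fun v => ({v} : Finset ℕ)))
      ((Finset.range A).image (fun i => ({i, i + 1} : Finset ℕ)))
    have c3 := Finset.card_union_le ({∅} : Finset (Finset ℕ))
      ((Finset.range (A + B + 2)).image (fun v => ({v} : Finset ℕ)))
    have c4 : ((Finset.range (A + B + 2)).image (fun v => ({v} : Finset ℕ))).card ≤ A + B + 2 := by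
      simpa using Finset.card_image_le (s := Finset.range (A + B + 2)) (f := fun v => ({v} : Finset ℕ))
    have c5 : ((Finset.range A).image (fun i => ({i, i + 1} : Finset ℕ))).card ≤ A := by
      simpa using Finset.card_image_le (s := Finset.range A) (f := fun i => ({i, i + 1} : Finset ℕ))
    have c6 : ((Finset.range B).image (fun j => ({A + 1 + j, A + 1 + j + 1} : Finset ℕ))).card ≤ B := by
      simpa using Finset.card_image_le (s := Finset.range B)
        (f := fun j => ({A + 1 + j, A + 1 + j + 1} : Finset ℕ))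
    have c7 : ({∅} : Finset (Finset ℕ)).card = 1 := Finset.card_singleton _
    omega
  have hmaps : ∀ i ∈ (Finset.univ : Finset (Fin R.length)), (f i).1 ∈ S := by
    intro i _
    have hp := hD.1 (f i) (hf1 i)
    rcases hf3 i with h1 | h1
    · rcases Nat.lt_or_ge (f i).1.card 1 with h2 | h2
      · have h3 : (f i).1 = ∅ := Finset.card_eq_zero.mp (by omega)
        rw [h3, hS]
        simp
      · obtain ⟨v, hv⟩ := Finset.card_eq_one.mp (le_antisymm h1 h2)
        have hvlt : v < A + B + 2 := by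
          apply fac_lt h hp.2.2 v
          apply hp.1
          rw [hv]
          simp
        rw [hS, Finset.mem_union, Finset.mem_union, Finset.mem_union]
        refine Or.inl (Or.inl (Or.inr ?_))
        exact Finset.mem_image.mpr ⟨v, Finset.mem_range.mpr hvlt, hv.symm⟩
    · rw [hS, Finset.mem_union, Finset.mem_union, Finset.mem_union]
      rcases h1 with ⟨k, hk, h2⟩ | ⟨k, hk, h2⟩
      · exact Or.inl (Or.inr (Finset.mem_image.mpr ⟨k, Finset.mem_range.mpr hk, h2.symm⟩))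
      · exact Or.inr (Finset.mem_image.mpr ⟨k, Finset.mem_range.mpr hk, h2.symm⟩)
  have hlt : S.card < (Finset.univ : Finset (Fin R.length)).card := by
    rw [Finset.card_univ, Fintype.card_fin]
    omega
  obtain ⟨i, -, j, -, hij, hfe⟩ := Finset.exists_ne_map_eq_of_card_lt_of_maps_to hlt hmaps
  have hpi := hD.1 (f i) (hf1 i)
  have hpj := hD.1 (f j) (hf1 j)
  have hmem : (f i).1 ∈ cl (fac A B R) := cl_down _ _ hpi.2.2 _ hpi.1
  have hfij : f i = f j := by
    obtain ⟨p, -, huniq⟩ := hD.2 _ hmem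
    rw [huniq (f i) ⟨hf1 i, Finset.Subset.refl _, hpi.1⟩,
      huniq (f j) ⟨hf1 j, by rw [hfe], by rw [hfe]; exact hpj.1⟩]
  have h2i := hf2 i
  have h2j := hf2 j
  rw [← hfij] at h2j
  have hpw := List.pairwise_iff_get.mp h.2
  rcases lt_or_gt_of_ne hij with hlt' | hlt'
  · exact cnt_sep h (List.get_mem R i) (List.get_mem R j) (hpw i j hlt') hpi.2.2 h2i h2j
  · exact cnt_sep h (List.get_mem R j) (List.get_mem R i) (hpw j i hlt') hpi.2.2 h2j h2i

end Pool.Agent.H94.NP
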