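import Pool.Agent.H12.BallDefs

/-!
# Interval partitions
-/

namespace Pool.Agent.H94.NP

/-- `D` is a partition of the face poset of `Δ` into boolean intervals of rank at least `k`: the
interval `[x, y]` is given by the pair `(x, y)`, its rank is `|y \ x|`; all intervals lie in the
face poset and every face lies in exactly one of them. -/
def IntervalPartition {V : Type*} [DecidableEq V] (k : ℕ) (Δ : Set (Finset V))
    (D : Set (Finset V × Finset V)) : Prop :=
  (∀ p ∈ D, p.1 ⊆ p.2 ∧ k ≤ (p.2 \ p.1).card ∧ p.2 ∈ Δ) ∧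
    ∀ σ ∈ Δ, ∃! p : Finset V × Finset V, p ∈ D ∧ p.1 ⊆ σ ∧ σ ⊆ p.2

end Pool.Agent.H94.NP
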