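import Pool.Agent.H12.BallMain
import Pool.Agent.H94.NP.Statement

/-!
# A simplicial ball without interval partition: the combinatorial definitions

Vertices are natural numbers: `a_i = i` for `0 ≤ i ≤ A` and `b_j = A + 1 + j` for `0 ≤ j ≤ B`.
-/

namespace Pool.Agent.H94.NP

open Finset Pool.Agent.H12.Ball

/-- The complex generated by a family of facets. -/
def cl {V : Type*} (F : Set (Finset V)) : Set (Finset V) := {σ | ∃ T ∈ F, σ ⊆ T}

/-- The rectangle `[i, i + p] × [j, j + q]`. -/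
structure Rect where
  /-- left end -/
  i : ℕ
  /-- width -/
  p : ℕ
  /-- lower end -/
  j : ℕ
  /-- height -/
  q : ℕ

/-- The tetrahedron of the unit square `(i, j)`. -/
def sq (M i j : ℕ) : Finset ℕ := {i, i + 1, M + j, M + j + 1}

/-- The facets of the complementary ball of the rectangle `r`. -/
def cb (M : ℕ) (r : Rect) : Set (Finset ℕ) :=
  {T | (∃ k < r.q, T = {r.i, r.i + r.p, M + r.j + k, M + r.j + k + 1}) ∨
       (∃ k < r.p, T = {r.i + k, r.i + k + 1, M + r.j, M + r.j + r.q}) ∨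
       T = {r.i, r.i + r.p, M + r.j, M + r.j + r.q}}

/-- The unit square `(i, j)` lies in the rectangle `r`. -/
def cov (r : Rect) (i j : ℕ) : Prop := r.i ≤ i ∧ i < r.i + r.p ∧ r.j ≤ j ∧ j < r.j + r.q

/-- The facets of the ball given by the list `R` of rectangles in `[0, A] × [0, B]`. -/
def fac (A B : ℕ) (R : List Rect) : Set (Finset ℕ) :=
  {T | ∃ i < A, ∃ j < B, (∀ r ∈ R, ¬ cov r i j) ∧ T = sq (A + 1) i j} ∪
    {T | ∃ r ∈ R, T ∈ cb (A + 1) r}

/-- Conditions on one rectangle. -/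
def Fits (A B : ℕ) (r : Rect) : Prop := 2 ≤ r.p ∧ 2 ≤ r.q ∧ r.i + r.p ≤ A ∧ r.j + r.q ≤ B

/-- The interiors of two rectangles are disjoint. -/
def Sep (r s : Rect) : Prop :=
  r.i + r.p ≤ s.i ∨ s.i + s.p ≤ r.i ∨ r.j + r.q ≤ s.j ∨ s.j + s.q ≤ r.j

/-- Conditions on two rectangles, `r` preceding `s` in the list. -/
def Rel (r s : Rect) : Prop := Sep r s ∧ (r.i = s.i → r.p < s.p) ∧ (r.j = s.j → r.q ≠ s.q)

/-- A good list of rectangles. -/
def GoodList (A B : ℕ) (R : List Rect) : Prop := (∀ r ∈ R, Fits A B r) ∧ R.Pairwise Rel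

/-- A partition of the faces of `Δ` into intervals of rank at least two. -/
def Part2 {V : Type*} [DecidableEq V] (Δ : Set (Finset V)) (D : Set (Finset V × Finset V)) :
    Prop :=
  (∀ p ∈ D, p.1 ⊆ p.2 ∧ 2 ≤ (p.2 \ p.1).card ∧ p.2 ∈ Δ) ∧
    ∀ σ ∈ Δ, ∃! p : Finset V × Finset V, p ∈ D ∧ p.1 ⊆ σ ∧ σ ⊆ p.2

/-- An exchange inside the vertices `< n`. -/
def Step1 (n : ℕ) (Δ Δ' : Set (Finset ℕ)) : Prop :=
  ∃ A B : Finset ℕ, Exchange Δ Δ' A B ∧ (∀ v ∈ A, v < n) ∧ ∀ v ∈ B, v < n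

/-- An exchange inside the vertices `< n`, with two sets of size at least two. -/
def Step2 (n : ℕ) (Δ Δ' : Set (Finset ℕ)) : Prop :=
  ∃ A B : Finset ℕ, Exchange Δ Δ' A B ∧ 2 ≤ A.card ∧ 2 ≤ B.card ∧ (∀ v ∈ A, v < n) ∧
    ∀ v ∈ B, v < n

/-- The faces with all vertices `< n`, as faces over `Fin n`. -/
def rs (n : ℕ) (Δ : Set (Finset ℕ)) : Set (Finset (Fin n)) :=
  {σ | σ.map Fin.valEmbedding ∈ Δ}

/-- The join with the simplex on the vertices `n, ..., n + j - 1`. -/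
def coneN (n j : ℕ) (Δ : Set (Finset ℕ)) : Set (Finset ℕ) :=
  {σ | σ \ Finset.Ico n (n + j) ∈ Δ}

/-- The join of two families of facets. -/
def jn (S E : Set (Finset ℕ)) : Set (Finset ℕ) := {T | ∃ s ∈ S, ∃ e ∈ E, T = s ∪ e}

/-- The edges of the path with the vertices `o, o + k, o + k + 1, ..., o + m`. -/
def pathF (o m k : ℕ) : Set (Finset ℕ) :=
  {e | e = {o, o + k} ∨ ∃ i, k ≤ i ∧ i < m ∧ e = {o + i, o + i + 1}}

end Pool.Agent.H94.NP
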