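import Pool.Agent.H94.NP.Defs

namespace Pool.Agent.H94.NP

open Finset Pool.Agent.H12.Ball

theorem cl_down {V : Type*} (F : Set (Finset V)) : Down (cl F) := by
  rintro σ ⟨T, hT, hσ⟩ τ hτ
  exact ⟨T, hT, hτ.trans hσ⟩

/-- An exchange described on facets: the facets above `A` are the sets `A ∪ (B - b) ∪ l`, they
are replaced by the sets `(A - a) ∪ B ∪ l`. -/
theorem exchange_of_facets {V : Type*} [DecidableEq V] {F F' L : Set (Finset V)} {A B : Finset V}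
    (hA : A.Nonempty) (hB : B.Nonempty) (hAB : Disjoint A B) (hL : ∀ l ∈ L, Disjoint A l)
    (h1 : ∀ T ∈ F, ¬ B ⊆ T)
    (h2 : ∀ T ∈ F, A ⊆ T → ∃ b ∈ B, ∃ l ∈ L, T ⊆ A ∪ B.erase b ∪ l)
    (h3 : ∀ b ∈ B, ∀ l ∈ L, ∃ T ∈ F, A ∪ B.erase b ∪ l ⊆ T)
    (h4 : ∀ T ∈ F', (T ∈ F ∧ ¬ A ⊆ T) ∨ ∃ a ∈ A, ∃ l ∈ L, T ⊆ A.erase a ∪ B ∪ l)
    (h5 : ∀ T ∈ F, ¬ A ⊆ T → T ∈ F')
    (h6 : ∀ a ∈ A, ∀ l ∈ L, ∃ T ∈ F', A.erase a ∪ B ∪ l ⊆ T) :
    Exchange (cl F) (cl F') A B where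
  neA := hA
  neB := hB
  disj := hAB
  down := cl_down F
  down' := cl_down F'
  hB := by
    rintro σ ⟨T, hT, hσ⟩ hB
    exact h1 T hT (hB.trans hσ)
  hA := by
    rintro σ ⟨T, hT, hσ⟩ hAσ
    have hAT := hAσ.trans hσ
    rcases h4 T hT with ⟨_, h⟩ | ⟨a, ha, l, hl, h⟩
    · exact h hAT
    · have := h (hAT ha)
      simp only [Finset.mem_union, Finset.mem_erase, ne_eq, not_true_eq_false, false_and,
        false_or] at this
      rcases this with h5 | h5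
      · exact Finset.disjoint_left.1 hAB ha h5
      · exact Finset.disjoint_left.1 (hL l hl) ha h5
  h1 := by
    rintro σ ⟨T, hT, hσ⟩ hAσ
    by_cases hAT : A ⊆ T
    · obtain ⟨b, hb, l, hl, h⟩ := h2 T hT hAT
      rw [Finset.not_subset] at hAσ
      obtain ⟨a, ha, ha2⟩ := hAσ
      obtain ⟨T', hT', h'⟩ := h6 a ha l hl
      refine ⟨T', hT', fun x hx => h' ?_⟩
      have := h (hσ hx)
      simp only [Finset.mem_union, Finset.mem_erase] at this ⊢
      have hne : x ≠ a := fun h => ha2 (h ▸ hx)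
      tauto
    · exact ⟨T, h5 T hT hAT, hσ⟩
  h1' := by
    rintro σ ⟨T, hT, hσ⟩ hBσ
    rcases h4 T hT with ⟨h, _⟩ | ⟨a, ha, l, hl, h⟩
    · exact ⟨T, h, hσ⟩
    · rw [Finset.not_subset] at hBσ
      obtain ⟨b, hb, hb2⟩ := hBσ
      obtain ⟨T', hT', h'⟩ := h3 b hb l hl
      refine ⟨T', hT', fun x hx => h' ?_⟩
      have := h (hσ hx)
      simp only [Finset.mem_union, Finset.mem_erase] at this ⊢
      have hne : x ≠ b := fun h => hb2 (h ▸ hx)
      tauto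
  h2 := by
    rintro σ ⟨T, hT, hσ⟩ hAσ a ha
    obtain ⟨b, hb, l, hl, h⟩ := h2 T hT (hAσ.trans hσ)
    obtain ⟨T', hT', h'⟩ := h6 a ha l hl
    refine ⟨T', hT', fun x hx => h' ?_⟩
    rw [Finset.mem_union, Finset.mem_erase] at hx
    rcases hx with ⟨hx1, hx2⟩ | hx
    · have := h (hσ hx2)
      simp only [Finset.mem_union, Finset.mem_erase] at this ⊢
      tauto
    · simp only [Finset.mem_union, Finset.mem_erase]
      tauto
  h3 := by
    rintro σ ⟨T, hT, hσ⟩ hBσ b hb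
    rcases h4 T hT with ⟨h, _⟩ | ⟨a, ha, l, hl, h⟩
    · exact absurd (hBσ.trans hσ) (h1 T h)
    · obtain ⟨T', hT', h'⟩ := h3 b hb l hl
      refine ⟨T', hT', fun x hx => h' ?_⟩
      rw [Finset.mem_union, Finset.mem_erase] at hx
      rcases hx with ⟨hx1, hx2⟩ | hx
      · have := h (hσ hx2)
        simp only [Finset.mem_union, Finset.mem_erase] at this ⊢
        tauto
      · simp only [Finset.mem_union, Finset.mem_erase]
        tauto

end Pool.Agent.H94.NP
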