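import Pool.Agent.H94.NP.Facets

namespace Pool.Agent.H94.NP

open Finset Pool.Agent.H12.Ball

private theorem fan_aux {Δ : Set (Finset ℕ)} {D : Set (Finset ℕ × Finset ℕ)} (hD : Part2 Δ D)
    {q : ℕ} (hq : 2 ≤ q) {ρ T : ℕ → Finset ℕ} {z s : Finset ℕ}
    (hρΔ : ∀ k ≤ q, ρ k ∈ Δ)
    (h1 : ∀ k < q, ρ k ⊆ T k) (h2 : ∀ k < q, ρ (k + 1) ⊆ T k) (h0 : ρ 0 ⊆ z) (hqz : ρ q ⊆ z)
    (hs : ∀ k ≤ q, s ⊆ ρ k)
    (hTT : ∀ k, k + 1 < q → T k ≠ T (k + 1)) (hTz : ∀ k < q, T k ≠ z)
    (hor : ∀ p ∈ D, ∀ k < q, p.2 = T k → p.1 ⊆ ρ k ∨ p.1 ⊆ ρ (k + 1))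
    (hex : ∀ k < q, ∃ p ∈ D, p.2 = T k)
    (hsp : ∃ p ∈ D, p.1 ⊆ s ∧ (p.2 = z ∨ ∃ k < q, p.2 = T k))
    {p : Finset ℕ × Finset ℕ} (hp : p ∈ D) (hp2 : p.2 = z) (hp1 : p.1 ⊆ ρ 0) : False := by
  have uniq : ∀ k ≤ q, ∀ u ∈ D, ∀ v ∈ D, u.1 ⊆ ρ k → ρ k ⊆ u.2 → v.1 ⊆ ρ k → ρ k ⊆ v.2 →
      u = v := by
    intro k hk u hu v hv a1 a2 a3 a4
    obtain ⟨w, _, hw⟩ := hD.2 (ρ k) (hρΔ k hk)
    rw [hw u ⟨hu, a1, a2⟩, hw v ⟨hv, a3, a4⟩]
  have C : ∀ k, k < q → ∀ u ∈ D, u.2 = T k → ¬ u.1 ⊆ ρ k := by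
    intro k
    induction k with
    | zero =>
      intro h u hu hu2 hu1
      have := uniq 0 (Nat.zero_le _) u hu p hp hu1 (by rw [hu2]; exact h1 0 h) hp1
        (by rw [hp2]; exact h0)
      exact hTz 0 h (by rw [← hu2, this, hp2])
    | succ k ih =>
      intro h u hu hu2 hu1
      have hk : k < q := by omega
      obtain ⟨w, hw, hw2⟩ := hex k hk
      have h3 := (hor w hw k hk hw2).resolve_left (ih hk w hw hw2)
      have := uniq (k + 1) (by omega) u hu w hw hu1 (by rw [hu2]; exact h1 (k + 1) h) h3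
        (by rw [hw2]; exact h2 k hk)
      exact hTT k h (by rw [← hu2, this, hw2])
  obtain ⟨v, hv, hv1, hv2⟩ := hsp
  rcases hv2 with hv2 | ⟨k, hk, hv2⟩
  · obtain ⟨w, hw, hw2⟩ := hex (q - 1) (by omega)
    have hq1 : q - 1 + 1 = q := by omega
    have h3 := (hor w hw (q - 1) (by omega) hw2).resolve_left (C (q - 1) (by omega) w hw hw2)
    rw [hq1] at h3
    have h4 := h2 (q - 1) (by omega)
    rw [hq1] at h4
    have := uniq q le_rfl v hv w hw (hv1.trans (hs q le_rfl)) (by rw [hv2]; exact hqz) h3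
      (by rw [hw2]; exact h4)
    exact hTz (q - 1) (by omega) (by rw [← hw2, ← this, hv2])
  · exact C k hk v hv hv2 (hv1.trans (hs k hk.le))

/-- The fan lemma: around the edge `{a, a'}` with the closed fan `b 0, ..., b q`, the
tetrahedron `{a, a', b 0, b q}` has the bottom `{b 0, b q}`.

Proof. Write `T k = {a, a', b k, b (k + 1)}` for `k < q`, `z = {a, a', b 0, b q}`,
`ρ k = {a, a', b k}` for `k ≤ q`. By `hbot`, `hcard` and `2 ≤ (p.2 \ p.1).card` every interval
`p` with `a, a' ∈ p.2` has `p.1.card = 2`, `p.2.card = 4`, so `p.2` is `z` or some `T k` (`htop`).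
The interval of the face `T k` is `(e k, T k)`, `e k ≠ {b k, b (k + 1)}` (`hpath`), so
`e k ⊆ ρ k` or `e k ⊆ ρ (k + 1)`. Let `p` be the interval of `z`.
If `p.1 ⊆ ρ 0`, then `ρ 0` is covered by `p`, so `e 0` is not inside `ρ 0` (uniqueness), hence
`e 0 ⊆ ρ 1`; by induction `ρ (k + 1)` is covered by `(e k, T k)` and `b (k + 1) ∈ e k`. The face
`{a, a'}` has an interval with bottom `{a, a'}` and top `z` (it would cover `ρ q`, which is covered
by `(e (q - 1), T (q - 1))`) or `T k` (then `e k = {a, a'}`, but `b (k + 1) ∈ e k`): contradiction.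
If `p.1 ⊆ ρ q`: the same downwards (`ρ k` is covered by `(e k, T k)`, `b k ∈ e k`).
So `p.1` is a two element subset of `z` in neither `ρ 0` nor `ρ q`: it is `{b 0, b q}`. -/
theorem fan {Δ : Set (Finset ℕ)} {D : Set (Finset ℕ × Finset ℕ)} (hD : Part2 Δ D)
    {a a' q : ℕ} {b : ℕ → ℕ} (hq : 2 ≤ q) (haa : a ≠ a') (hba : ∀ k ≤ q, b k ≠ a ∧ b k ≠ a')
    (hb : ∀ k ≤ q, ∀ l ≤ q, b k = b l → k = l)
    (hT : ∀ k < q, ({a, a', b k, b (k + 1)} : Finset ℕ) ∈ Δ)
    (hz : ({a, a', b 0, b q} : Finset ℕ) ∈ Δ)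
    (hdown : Down Δ)
    (hcard : ∀ σ ∈ Δ, σ.card ≤ 4)
    (htop : ∀ σ ∈ Δ, σ.card = 4 → a ∈ σ → a' ∈ σ → σ = {a, a', b 0, b q} ∨
      ∃ k < q, σ = {a, a', b k, b (k + 1)})
    (hbot : ∀ p ∈ D, a ∈ p.2 → a' ∈ p.2 → 2 ≤ p.1.card)
    (hpath : ∀ p ∈ D, ∀ k < q, p.2 = {a, a', b k, b (k + 1)} → p.1 ≠ {b k, b (k + 1)})
    {p : Finset ℕ × Finset ℕ} (hp : p ∈ D) (hp2 : p.2 = {a, a', b 0, b q}) :
    p.1 = {b 0, b q} := by
  -- cards
  have hc : ∀ u ∈ D, a ∈ u.2 → a' ∈ u.2 → u.1.card = 2 ∧ u.2.card = 4 := by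
    intro u hu h1 h2
    obtain ⟨h3, h4, h5⟩ := hD.1 u hu
    have h6 := hcard _ h5
    have h7 := hbot u hu h1 h2
    have h8 := Finset.card_sdiff_add_card_eq_card h3
    omega
  have htp : ∀ u ∈ D, a ∈ u.2 → a' ∈ u.2 → u.2 = {a, a', b 0, b q} ∨
      ∃ k < q, u.2 = {a, a', b k, b (k + 1)} := by
    intro u hu h1 h2
    exact htop _ (hD.1 u hu).2.2 (hc u hu h1 h2).2 h1 h2
  -- two element subsets of a set of four elements
  have two : ∀ (u : Finset ℕ × Finset ℕ) (x y : ℕ), u ∈ D → u.2 = {a, a', x, y} →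
      x ≠ y → u.1 ≠ {x, y} → u.1 ⊆ {a, a', x} ∨ u.1 ⊆ {a, a', y} := by
    intro u x y hu hu2 hxy hne
    obtain ⟨h3, h4, h5⟩ := hD.1 u hu
    have hcu := (hc u hu (by rw [hu2]; simp) (by rw [hu2]; simp)).1
    rw [hu2] at h3
    by_cases hy : y ∈ u.1
    · by_cases hx : x ∈ u.1
      · exfalso
        apply hne
        symm
        apply Finset.eq_of_subset_of_card_le
        · intro w hw
          rw [Finset.mem_insert, Finset.mem_singleton] at hw
          rcases hw with rfl | rfl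
          · exact hx
          · exact hy
        · rw [hcu, Finset.card_pair hxy]
      · right
        intro w hw
        have := h3 hw
        simp only [Finset.mem_insert, Finset.mem_singleton] at this ⊢
        rcases this with h | h | h | h
        · exact Or.inl h
        · exact Or.inr (Or.inl h)
        · exact absurd (h ▸ hw) hx
        · exact Or.inr (Or.inr h)
    · left
      intro w hw
      have := h3 hw
      simp only [Finset.mem_insert, Finset.mem_singleton] at this ⊢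
      rcases this with h | h | h | h
      · exact Or.inl h
      · exact Or.inr (Or.inl h)
      · exact Or.inr (Or.inr h)
      · exact absurd (h ▸ hw) hy
  -- distinct tops
  have hmem : ∀ (x y u v : ℕ), x ≠ a → x ≠ a' → ({a, a', x, y} : Finset ℕ) = {a, a', u, v} →
      x = u ∨ x = v := by
    intro x y u v h1 h2 h
    have : x ∈ ({a, a', u, v} : Finset ℕ) := by rw [← h]; simp
    simp only [Finset.mem_insert, Finset.mem_singleton] at this
    tauto
  have hmem' : ∀ (x y u v : ℕ), y ≠ a → y ≠ a' → ({a, a', x, y} : Finset ℕ) = {a, a', u, v} →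
      y = u ∨ y = v := by
    intro x y u v h1 h2 h
    have : y ∈ ({a, a', u, v} : Finset ℕ) := by rw [← h]; simp
    simp only [Finset.mem_insert, Finset.mem_singleton] at this
    tauto
  have hTT : ∀ k, k + 1 < q → ({a, a', b k, b (k + 1)} : Finset ℕ) ≠
      {a, a', b (k + 1), b (k + 1 + 1)} := by
    intro k hk h
    rcases hmem _ _ _ _ (hba k (by omega)).1 (hba k (by omega)).2 h with h1 | h1
    · have := hb k (by omega) (k + 1) (by omega) h1
      omega
    · have := hb k (by omega) (k + 1 + 1) (by omega) h1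
      omega
  have hTz : ∀ k < q, ({a, a', b k, b (k + 1)} : Finset ℕ) ≠ {a, a', b 0, b q} := by
    intro k hk h
    have e1 : k = 0 ∨ k = q := by
      rcases hmem _ _ _ _ (hba k (by omega)).1 (hba k (by omega)).2 h with h1 | h1
      · exact Or.inl (hb k (by omega) 0 (by omega) h1)
      · exact Or.inr (hb k (by omega) q (by omega) h1)
    have e2 : k + 1 = 0 ∨ k + 1 = q := by
      rcases hmem' _ _ _ _ (hba (k + 1) (by omega)).1 (hba (k + 1) (by omega)).2 h with h1 | h1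
      · exact Or.inl (hb (k + 1) (by omega) 0 (by omega) h1)
      · exact Or.inr (hb (k + 1) (by omega) q (by omega) h1)
    omega
  have hor : ∀ u ∈ D, ∀ k < q, u.2 = {a, a', b k, b (k + 1)} →
      u.1 ⊆ {a, a', b k} ∨ u.1 ⊆ {a, a', b (k + 1)} := by
    intro u hu k hk hu2
    refine two u _ _ hu hu2 (fun h => ?_) (hpath u hu k hk hu2)
    have := hb k (by omega) (k + 1) (by omega) h
    omega
  have hex : ∀ k < q, ∃ u ∈ D, u.2 = {a, a', b k, b (k + 1)} := by
    intro k hk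
    obtain ⟨u, ⟨hu, hu1, hu2⟩, _⟩ := hD.2 _ (hT k hk)
    refine ⟨u, hu, ?_⟩
    symm
    apply Finset.eq_of_subset_of_card_le hu2
    rw [(hc u hu (hu2 (by simp)) (hu2 (by simp))).2]
    have h3 : b k ≠ b (k + 1) := fun h => by
      have := hb k (by omega) (k + 1) (by omega) h
      omega
    have hk1 := hba k (by omega)
    have hk2 := hba (k + 1) (by omega)
    rw [Finset.card_insert_of_notMem, Finset.card_insert_of_notMem, Finset.card_pair h3]
    · simp only [Finset.mem_insert, Finset.mem_singleton, not_or]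
      exact ⟨hk1.2.symm, hk2.2.symm⟩
    · simp only [Finset.mem_insert, Finset.mem_singleton, not_or]
      exact ⟨haa, hk1.1.symm, hk2.1.symm⟩
  have hρ : ∀ k ≤ q, ({a, a', b k} : Finset ℕ) ∈ Δ := by
    intro k hk
    rcases Nat.lt_or_ge k q with h | h
    · refine hdown _ (hT k h) _ fun w hw => ?_
      simp only [Finset.mem_insert, Finset.mem_singleton] at hw ⊢
      tauto
    · have : k = q := le_antisymm hk h
      subst this
      refine hdown _ hz _ fun w hw => ?_
      simp only [Finset.mem_insert, Finset.mem_singleton] at hw ⊢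
      tauto
  have hsp : ∃ u ∈ D, u.1 ⊆ {a, a'} ∧ (u.2 = {a, a', b 0, b q} ∨
      ∃ k < q, u.2 = {a, a', b k, b (k + 1)}) := by
    have h3 : ({a, a'} : Finset ℕ) ∈ Δ := by
      refine hdown _ hz _ fun w hw => ?_
      simp only [Finset.mem_insert, Finset.mem_singleton] at hw ⊢
      tauto
    obtain ⟨u, ⟨hu, hu1, hu2⟩, _⟩ := hD.2 _ h3
    exact ⟨u, hu, hu1, htp u hu (hu2 (by simp)) (hu2 (by simp))⟩
  have sub1 : ∀ x y : ℕ, ({a, a', x} : Finset ℕ) ⊆ {a, a', x, y} := by
    intro x y w hw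
    simp only [Finset.mem_insert, Finset.mem_singleton] at hw ⊢
    tauto
  have sub2 : ∀ x y : ℕ, ({a, a', y} : Finset ℕ) ⊆ {a, a', x, y} := by
    intro x y w hw
    simp only [Finset.mem_insert, Finset.mem_singleton] at hw ⊢
    tauto
  have sub3 : ∀ x : ℕ, ({a, a'} : Finset ℕ) ⊆ {a, a', x} := by
    intro x w hw
    simp only [Finset.mem_insert, Finset.mem_singleton] at hw ⊢
    tauto
  have h0q : b 0 ≠ b q := fun h => by
    have := hb 0 (by omega) q le_rfl h
    omega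
  by_contra hne
  rcases two p _ _ hp hp2 h0q hne with h | h
  · exact fan_aux hD hq (ρ := fun k => {a, a', b k}) (T := fun k => {a, a', b k, b (k + 1)})
      (z := {a, a', b 0, b q}) (s := {a, a'}) hρ (fun k _ => sub1 _ _) (fun k _ => sub2 _ _)
      (sub1 _ _) (sub2 _ _) (fun k _ => sub3 _) hTT hTz hor hex hsp hp hp2 h
  · refine fan_aux hD hq (ρ := fun k => {a, a', b (q - k)})
      (T := fun k => {a, a', b (q - 1 - k), b (q - 1 - k + 1)})
      (z := {a, a', b 0, b q}) (s := {a, a'}) (fun k _ => hρ _ (by omega)) ?_ ?_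
      ?_ ?_ (fun k _ => sub3 _) ?_ (fun k hk => hTz _ (by omega)) ?_
      (fun k hk => hex _ (by omega)) ?_ hp hp2 ?_
    · intro k hk
      have e : q - 1 - k + 1 = q - k := by omega
      simp only [e]
      exact sub2 _ _
    · intro k hk
      have e : q - (k + 1) = q - 1 - k := by omega
      simp only [e]
      exact sub1 _ _
    · simp only [Nat.sub_zero]
      exact sub2 _ _
    · simp only [Nat.sub_self]
      exact sub1 _ _
    · intro k hk
      have e : q - 1 - k = q - 1 - (k + 1) + 1 := by omega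
      simp only [e]
      exact (hTT (q - 1 - (k + 1)) (by omega)).symm
    · intro u hu k hk hu2
      have e1 : q - 1 - k + 1 = q - k := by omega
      have e2 : q - (k + 1) = q - 1 - k := by omega
      have := hor u hu (q - 1 - k) (by omega) hu2
      simp only [e1, e2] at this ⊢
      exact this.symm
    · obtain ⟨u, hu, hu1, hu2⟩ := hsp
      refine ⟨u, hu, hu1, ?_⟩
      rcases hu2 with h3 | ⟨k, hk, h3⟩
      · exact Or.inl h3
      · refine Or.inr ⟨q - 1 - k, by omega, ?_⟩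
        have e : q - 1 - (q - 1 - k) = k := by omega
        simp only [e]
        exact h3
    · simp only [Nat.sub_zero]
      exact h

end Pool.Agent.H94.NP
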