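import Pool.Agent.H94.NP.Facets

namespace Pool.Agent.H94.NP

open Finset Pool.Agent.H12.Ball

private theorem erase_ne {V : Type*} [DecidableEq V] {A : Finset V} (hA : 2 ≤ A.card) (v : V) :
    (A.erase v).Nonempty := by
  rw [← Finset.card_pos]
  have := Finset.pred_card_le_card_erase (s := A) (a := v)
  omega

private theorem sub_of_erase {V : Type*} [DecidableEq V] {A σ : Finset V} {v : V}
    (hs : A.erase v ⊆ σ) : A ⊆ σ ∪ {v} := by
  intro x hx
  rw [Finset.mem_union, Finset.mem_singleton]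
  by_cases hxv : x = v
  · exact Or.inr hxv
  · exact Or.inl (hs (Finset.mem_erase.2 ⟨hxv, hx⟩))

private theorem erase_of_sub {V : Type*} [DecidableEq V] {A σ : Finset V} {v : V}
    (hs : A ⊆ σ ∪ {v}) : A.erase v ⊆ σ := by
  intro x hx
  rw [Finset.mem_erase] at hx
  have := hs hx.2
  rw [Finset.mem_union, Finset.mem_singleton] at this
  exact this.resolve_right hx.1

private theorem link_down {V : Type*} [DecidableEq V] {Δ : Set (Finset V)}
    (h : ∀ σ ∈ Δ, ∀ τ, τ ⊆ σ → τ ∈ Δ) (v : V) :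
    ∀ σ ∈ link Δ {v}, ∀ τ, τ ⊆ σ → τ ∈ link Δ {v} := by
  rintro σ ⟨h1, h2, h3⟩ τ hτ
  exact ⟨h σ h1 τ hτ, h _ h2 _ (Finset.union_subset_union_left hτ), h3.mono_left hτ⟩

private theorem link_h1 {V : Type*} [DecidableEq V] {Δ Δ' : Set (Finset V)} {A B : Finset V}
    (h : Exchange Δ Δ' A B) {v : V} :
    ∀ σ ∈ link Δ {v}, ¬ A.erase v ⊆ σ → σ ∈ link Δ' {v} := by
  rintro σ ⟨_, h2, h3⟩ hn
  have h4 : σ ∪ {v} ∈ Δ' := h.h1 _ h2 fun hs => hn (erase_of_sub hs)
  exact ⟨h.down' _ h4 _ Finset.subset_union_left, h4, h3⟩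

private theorem link_h2 {V : Type*} [DecidableEq V] {Δ Δ' : Set (Finset V)} {A B : Finset V}
    (h : Exchange Δ Δ' A B) {v : V} :
    ∀ σ ∈ link Δ {v}, A.erase v ⊆ σ → ∀ a ∈ A.erase v,
      σ.erase a ∪ B.erase v ∈ link Δ' {v} := by
  rintro σ ⟨_, h2, h3⟩ hs a ha
  rw [Finset.mem_erase] at ha
  have hvσ : v ∉ σ := Finset.disjoint_singleton_right.1 h3
  have h4 := h.h2 _ h2 (sub_of_erase hs) a ha.2
  have h5 : (σ.erase a ∪ B.erase v) ∪ {v} ⊆ (σ ∪ {v}).erase a ∪ B := by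
    intro x hx
    simp only [Finset.mem_union, Finset.mem_erase, Finset.mem_singleton, ne_eq] at hx ⊢
    rcases hx with (⟨h6, h7⟩ | ⟨_, h7⟩) | h7
    · exact Or.inl ⟨h6, Or.inl h7⟩
    · exact Or.inr h7
    · exact Or.inl ⟨fun h8 => ha.1 (h8.symm.trans h7), Or.inr h7⟩
  have h6 := h.down' _ h4 _ h5
  refine ⟨h.down' _ h6 _ Finset.subset_union_left, h6, ?_⟩
  rw [Finset.disjoint_singleton_right]
  intro h7
  simp only [Finset.mem_union, Finset.mem_erase, ne_eq, not_true_eq_false, false_and,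
    or_false] at h7
  exact hvσ h7.2

/-- An exchange with two sets of size at least two induces exchanges of all vertex links. -/
theorem link_exchange {V : Type*} [DecidableEq V] {Δ Δ' : Set (Finset V)} {A B : Finset V}
    (h : Exchange Δ Δ' A B) (hA : 2 ≤ A.card) (hB : 2 ≤ B.card) (v : V) :
    Exchange (link Δ {v}) (link Δ' {v}) (A.erase v) (B.erase v) where
  neA := erase_ne hA v
  neB := erase_ne hB v
  disj := h.disj.mono (Finset.erase_subset _ _) (Finset.erase_subset _ _)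
  down := link_down h.down v
  down' := link_down h.down' v
  hB := fun _ hσ hs => h.hB _ hσ.2.1 (sub_of_erase hs)
  hA := fun _ hσ hs => h.hA _ hσ.2.1 (sub_of_erase hs)
  h1 := link_h1 h
  h1' := link_h1 h.symm
  h2 := link_h2 h
  h3 := link_h2 h.symm

/-- the restriction of a set -/
private def rsF (n : ℕ) (A : Finset ℕ) : Finset (Fin n) := Finset.univ.filter fun v => v.val ∈ A

private theorem rsF_map {n : ℕ} {A : Finset ℕ} (hA : ∀ v ∈ A, v < n) :
    (rsF n A).map Fin.valEmbedding = A := by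
  ext x
  simp only [rsF, Finset.mem_map, Finset.mem_filter, Finset.mem_univ, true_and,
    Fin.valEmbedding_apply]
  constructor
  · rintro ⟨a, ha, rfl⟩
    exact ha
  · intro hx
    exact ⟨⟨x, hA x hx⟩, hx, rfl⟩

private theorem rs_h1 {n : ℕ} {Δ Δ' : Set (Finset ℕ)} {A B : Finset ℕ} (h : Exchange Δ Δ' A B)
    (hA : ∀ v ∈ A, v < n) : ∀ σ ∈ rs n Δ, ¬ rsF n A ⊆ σ → σ ∈ rs n Δ' := by
  intro σ hσ hn
  refine h.h1 _ hσ fun hs => hn ?_
  rwa [← Finset.map_subset_map (f := Fin.valEmbedding), rsF_map hA]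

private theorem rs_h2 {n : ℕ} {Δ Δ' : Set (Finset ℕ)} {A B : Finset ℕ} (h : Exchange Δ Δ' A B)
    (hA : ∀ v ∈ A, v < n) (hB : ∀ v ∈ B, v < n) : ∀ σ ∈ rs n Δ, rsF n A ⊆ σ → ∀ a ∈ rsF n A,
      σ.erase a ∪ rsF n B ∈ rs n Δ' := by
  intro σ hσ hs a ha
  have h1 : A ⊆ σ.map Fin.valEmbedding := by
    rw [← rsF_map hA]
    exact Finset.map_subset_map.2 hs
  have h2 : a.val ∈ A := (Finset.mem_filter.1 ha).2
  have h3 := h.h2 _ hσ h1 a.val h2
  change (σ.erase a ∪ rsF n B).map Fin.valEmbedding ∈ Δ'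
  rw [Finset.map_union, Finset.map_erase, rsF_map hB]
  exact h3

/-- Restriction of an exchange to the vertices `< n`. -/
theorem rs_exchange {n : ℕ} {Δ Δ' : Set (Finset ℕ)} {A B : Finset ℕ} (h : Exchange Δ Δ' A B)
    (hA : ∀ v ∈ A, v < n) (hB : ∀ v ∈ B, v < n) :
    ∃ A' B' : Finset (Fin n), Exchange (rs n Δ) (rs n Δ') A' B' ∧ A'.card = A.card ∧
      B'.card = B.card := by
  refine ⟨rsF n A, rsF n B, ?_, ?_, ?_⟩
  · refine ⟨?_, ?_, ?_, ?_, ?_, ?_, ?_, rs_h1 h hA, rs_h1 h.symm hB, rs_h2 h hA hB,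
      rs_h2 h.symm hB hA⟩
    · rw [← Finset.map_nonempty (f := Fin.valEmbedding), rsF_map hA]
      exact h.neA
    · rw [← Finset.map_nonempty (f := Fin.valEmbedding), rsF_map hB]
      exact h.neB
    · rw [← Finset.disjoint_map Fin.valEmbedding, rsF_map hA, rsF_map hB]
      exact h.disj
    · exact fun σ hσ τ hτ => h.down _ hσ _ (Finset.map_subset_map.2 hτ)
    · exact fun σ hσ τ hτ => h.down' _ hσ _ (Finset.map_subset_map.2 hτ)
    · intro σ hσ hs
      refine h.hB _ hσ ?_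
      rw [← rsF_map hB]
      exact Finset.map_subset_map.2 hs
    · intro σ hσ hs
      refine h.hA _ hσ ?_
      rw [← rsF_map hA]
      exact Finset.map_subset_map.2 hs
  · rw [← Finset.card_map Fin.valEmbedding, rsF_map hA]
  · rw [← Finset.card_map Fin.valEmbedding, rsF_map hB]

theorem rs_down {n : ℕ} {Δ : Set (Finset ℕ)} (h : Down Δ) : Down (rs n Δ) :=
  fun _ hσ _ hτ => h _ hσ _ (Finset.map_subset_map.2 hτ)

theorem link_rs (n : ℕ) (Δ : Set (Finset ℕ)) (σ : Finset (Fin n)) :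
    link (rs n Δ) σ = rs n (link Δ (σ.map Fin.valEmbedding)) := by
  ext τ
  simp only [link, rs, Set.mem_ofPred_eq, Finset.map_union, Finset.disjoint_map]

/-- The link of a vertex in the complex of a family of facets. -/
theorem link_cl {V : Type*} [DecidableEq V] (F : Set (Finset V)) (v : V) :
    link (cl F) {v} = cl {s | ∃ T ∈ F, v ∈ T ∧ s = T.erase v} := by
  ext τ
  constructor
  · rintro ⟨_, ⟨T, hT, h2⟩, h3⟩
    have hvτ : v ∉ τ := Finset.disjoint_singleton_right.1 h3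
    refine ⟨T.erase v, ⟨T, hT, h2 (Finset.mem_union_right _ (Finset.mem_singleton_self v)), rfl⟩,
      fun x hx => Finset.mem_erase.2 ⟨?_, h2 (Finset.mem_union_left _ hx)⟩⟩
    rintro rfl
    exact hvτ hx
  · rintro ⟨s, ⟨T, hT, hvT, rfl⟩, hs⟩
    refine ⟨⟨T, hT, hs.trans (Finset.erase_subset _ _)⟩, ⟨T, hT, ?_⟩, ?_⟩
    · refine Finset.union_subset (hs.trans (Finset.erase_subset _ _)) ?_
      rwa [Finset.singleton_subset_iff]
    · rw [Finset.disjoint_singleton_right]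
      exact fun h => (Finset.mem_erase.1 (hs h)).1 rfl

/-- Predicates on complexes that are invariant under exchanges and hold for cones. -/
structure Inv (n : ℕ) (P : Set (Finset (Fin n)) → Prop) : Prop where
  exch : ∀ (Δ Δ' : Set (Finset (Fin n))) (A B : Finset (Fin n)), Exchange Δ Δ' A B → P Δ → P Δ'
  cone : ∀ (Δ : Set (Finset (Fin n))) (z : Fin n), Down Δ → (∀ σ ∈ Δ, insert z σ ∈ Δ) → P Δ

theorem inv_step1 {n : ℕ} {P : Set (Finset (Fin n)) → Prop} (hP : Inv n P)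
    {Δ Δ' : Set (Finset ℕ)} (h : Relation.ReflTransGen (Step1 n) Δ Δ') :
    P (rs n Δ) ↔ P (rs n Δ') := by
  induction h with
  | refl => exact Iff.rfl
  | tail _ h2 ih =>
    obtain ⟨A, B, hAB, hA, hB⟩ := h2
    obtain ⟨A', B', h3, _, _⟩ := rs_exchange hAB hA hB
    exact ih.trans ⟨hP.exch _ _ _ _ h3, hP.exch _ _ _ _ h3.symm⟩

theorem inv_step2 {n : ℕ} {P : Set (Finset (Fin n)) → Prop} (hP : Inv n P)
    {Δ Δ' : Set (Finset ℕ)} (h : Relation.ReflTransGen (Step2 n) Δ Δ') (v : Fin n)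
    (hv : P (link (rs n Δ) {v})) : P (link (rs n Δ') {v}) := by
  induction h with
  | refl => exact hv
  | tail _ h2 ih =>
    obtain ⟨A, B, hAB, h2A, h2B, hA, hB⟩ := h2
    obtain ⟨A', B', h3, h4, h5⟩ := rs_exchange hAB hA hB
    exact hP.exch _ _ _ _ (link_exchange h3 (by omega) (by omega) v) ih

theorem homeo_of_steps {n : ℕ} {Δ Δ' : Set (Finset ℕ)}
    (h : Relation.ReflTransGen (Step1 n) Δ Δ') :
    Nonempty (realization (rs n Δ) ≃ₜ realization (rs n Δ')) := by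
  induction h with
  | refl => exact ⟨Homeomorph.refl _⟩
  | tail _ h2 ih =>
    obtain ⟨A, B, hAB, hA, hB⟩ := h2
    obtain ⟨A', B', h3, _, _⟩ := rs_exchange hAB hA hB
    exact ⟨ih.some.trans h3.homeo⟩

theorem step1_of_step2 {n : ℕ} {Δ Δ' : Set (Finset ℕ)}
    (h : Relation.ReflTransGen (Step2 n) Δ Δ') : Relation.ReflTransGen (Step1 n) Δ Δ' := by
  induction h with
  | refl => exact Relation.ReflTransGen.refl
  | tail _ h2 ih =>
    obtain ⟨A, B, h1, _, _, h4, h5⟩ := h2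
    exact ih.tail ⟨A, B, h1, h4, h5⟩

end Pool.Agent.H94.NP
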