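import Pool.Agent.H94.NP.Defs

namespace Pool.Agent.H94.NP

/-- The five classes of rectangles: width, height and shift. -/
def classes : List (ℕ × ℕ × ℕ) := [(2, 5, 15), (3, 6, 0), (4, 4, 11), (5, 3, 46), (6, 2, 49)]

/-- The rectangles with left end `k`. -/
def rowR (k : ℕ) : List Rect :=
  classes.filterMap fun c =>
    if k + c.1 ≤ 71 ∧ (20 * k + c.2.2) % 71 + c.2.1 ≤ 71 then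
      some ⟨k, c.1, (20 * k + c.2.2) % 71, c.2.1⟩ else none

/-- The list of rectangles. -/
def tileR : List Rect := (List.range 71).flatMap rowR

/-- The same list, explicitly. -/
private def tileL : List Rect :=
  [⟨0, 2, 15, 5⟩, ⟨0, 3, 0, 6⟩, ⟨0, 4, 11, 4⟩, ⟨0, 5, 46, 3⟩, ⟨0, 6, 49, 2⟩, ⟨1, 2, 35, 5⟩,
   ⟨1, 3, 20, 6⟩, ⟨1, 4, 31, 4⟩, ⟨1, 5, 66, 3⟩, ⟨1, 6, 69, 2⟩, ⟨2, 2, 55, 5⟩, ⟨2, 3, 40, 6⟩,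
   ⟨2, 4, 51, 4⟩, ⟨2, 5, 15, 3⟩, ⟨2, 6, 18, 2⟩, ⟨3, 2, 4, 5⟩, ⟨3, 3, 60, 6⟩, ⟨3, 4, 0, 4⟩,
   ⟨3, 5, 35, 3⟩, ⟨3, 6, 38, 2⟩, ⟨4, 2, 24, 5⟩, ⟨4, 3, 9, 6⟩, ⟨4, 4, 20, 4⟩, ⟨4, 5, 55, 3⟩,
   ⟨4, 6, 58, 2⟩, ⟨5, 2, 44, 5⟩, ⟨5, 3, 29, 6⟩, ⟨5, 4, 40, 4⟩, ⟨5, 5, 4, 3⟩, ⟨5, 6, 7, 2⟩,
   ⟨6, 2, 64, 5⟩, ⟨6, 3, 49, 6⟩, ⟨6, 4, 60, 4⟩, ⟨6, 5, 24, 3⟩, ⟨6, 6, 27, 2⟩, ⟨7, 2, 13, 5⟩,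
   ⟨7, 4, 9, 4⟩, ⟨7, 5, 44, 3⟩, ⟨7, 6, 47, 2⟩, ⟨8, 2, 33, 5⟩, ⟨8, 3, 18, 6⟩, ⟨8, 4, 29, 4⟩,
   ⟨8, 5, 64, 3⟩, ⟨8, 6, 67, 2⟩, ⟨9, 2, 53, 5⟩, ⟨9, 3, 38, 6⟩, ⟨9, 4, 49, 4⟩, ⟨9, 5, 13, 3⟩,
   ⟨9, 6, 16, 2⟩, ⟨10, 2, 2, 5⟩, ⟨10, 3, 58, 6⟩, ⟨10, 5, 33, 3⟩, ⟨10, 6, 36, 2⟩, ⟨11, 2, 22, 5⟩,
   ⟨11, 3, 7, 6⟩, ⟨11, 4, 18, 4⟩, ⟨11, 5, 53, 3⟩, ⟨11, 6, 56, 2⟩, ⟨12, 2, 42, 5⟩, ⟨12, 3, 27, 6⟩,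
   ⟨12, 4, 38, 4⟩, ⟨12, 5, 2, 3⟩, ⟨12, 6, 5, 2⟩, ⟨13, 2, 62, 5⟩, ⟨13, 3, 47, 6⟩, ⟨13, 4, 58, 4⟩,
   ⟨13, 5, 22, 3⟩, ⟨13, 6, 25, 2⟩, ⟨14, 2, 11, 5⟩, ⟨14, 4, 7, 4⟩, ⟨14, 5, 42, 3⟩, ⟨14, 6, 45, 2⟩,
   ⟨15, 2, 31, 5⟩, ⟨15, 3, 16, 6⟩, ⟨15, 4, 27, 4⟩, ⟨15, 5, 62, 3⟩, ⟨15, 6, 65, 2⟩,
   ⟨16, 2, 51, 5⟩, ⟨16, 3, 36, 6⟩, ⟨16, 4, 47, 4⟩, ⟨16, 5, 11, 3⟩, ⟨16, 6, 14, 2⟩, ⟨17, 2, 0, 5⟩,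
   ⟨17, 3, 56, 6⟩, ⟨17, 4, 67, 4⟩, ⟨17, 5, 31, 3⟩, ⟨17, 6, 34, 2⟩, ⟨18, 2, 20, 5⟩, ⟨18, 3, 5, 6⟩,
   ⟨18, 4, 16, 4⟩, ⟨18, 5, 51, 3⟩, ⟨18, 6, 54, 2⟩, ⟨19, 2, 40, 5⟩, ⟨19, 3, 25, 6⟩,
   ⟨19, 4, 36, 4⟩, ⟨19, 5, 0, 3⟩, ⟨19, 6, 3, 2⟩, ⟨20, 2, 60, 5⟩, ⟨20, 3, 45, 6⟩, ⟨20, 4, 56, 4⟩,
   ⟨20, 5, 20, 3⟩, ⟨20, 6, 23, 2⟩, ⟨21, 2, 9, 5⟩, ⟨21, 3, 65, 6⟩, ⟨21, 4, 5, 4⟩, ⟨21, 5, 40, 3⟩,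
   ⟨21, 6, 43, 2⟩, ⟨22, 2, 29, 5⟩, ⟨22, 3, 14, 6⟩, ⟨22, 4, 25, 4⟩, ⟨22, 5, 60, 3⟩,
   ⟨22, 6, 63, 2⟩, ⟨23, 2, 49, 5⟩, ⟨23, 3, 34, 6⟩, ⟨23, 4, 45, 4⟩, ⟨23, 5, 9, 3⟩, ⟨23, 6, 12, 2⟩,
   ⟨24, 3, 54, 6⟩, ⟨24, 4, 65, 4⟩, ⟨24, 5, 29, 3⟩, ⟨24, 6, 32, 2⟩, ⟨25, 2, 18, 5⟩, ⟨25, 3, 3, 6⟩,
   ⟨25, 4, 14, 4⟩, ⟨25, 5, 49, 3⟩, ⟨25, 6, 52, 2⟩, ⟨26, 2, 38, 5⟩, ⟨26, 3, 23, 6⟩,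
   ⟨26, 4, 34, 4⟩, ⟨26, 6, 1, 2⟩, ⟨27, 2, 58, 5⟩, ⟨27, 3, 43, 6⟩, ⟨27, 4, 54, 4⟩, ⟨27, 5, 18, 3⟩,
   ⟨27, 6, 21, 2⟩, ⟨28, 2, 7, 5⟩, ⟨28, 3, 63, 6⟩, ⟨28, 4, 3, 4⟩, ⟨28, 5, 38, 3⟩, ⟨28, 6, 41, 2⟩,
   ⟨29, 2, 27, 5⟩, ⟨29, 3, 12, 6⟩, ⟨29, 4, 23, 4⟩, ⟨29, 5, 58, 3⟩, ⟨29, 6, 61, 2⟩,
   ⟨30, 2, 47, 5⟩, ⟨30, 3, 32, 6⟩, ⟨30, 4, 43, 4⟩, ⟨30, 5, 7, 3⟩, ⟨30, 6, 10, 2⟩, ⟨31, 3, 52, 6⟩,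
   ⟨31, 4, 63, 4⟩, ⟨31, 5, 27, 3⟩, ⟨31, 6, 30, 2⟩, ⟨32, 2, 16, 5⟩, ⟨32, 3, 1, 6⟩, ⟨32, 4, 12, 4⟩,
   ⟨32, 5, 47, 3⟩, ⟨32, 6, 50, 2⟩, ⟨33, 2, 36, 5⟩, ⟨33, 3, 21, 6⟩, ⟨33, 4, 32, 4⟩,
   ⟨33, 5, 67, 3⟩, ⟨34, 2, 56, 5⟩, ⟨34, 3, 41, 6⟩, ⟨34, 4, 52, 4⟩, ⟨34, 5, 16, 3⟩,
   ⟨34, 6, 19, 2⟩, ⟨35, 2, 5, 5⟩, ⟨35, 3, 61, 6⟩, ⟨35, 4, 1, 4⟩, ⟨35, 5, 36, 3⟩, ⟨35, 6, 39, 2⟩,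
   ⟨36, 2, 25, 5⟩, ⟨36, 3, 10, 6⟩, ⟨36, 4, 21, 4⟩, ⟨36, 5, 56, 3⟩, ⟨36, 6, 59, 2⟩,
   ⟨37, 2, 45, 5⟩, ⟨37, 3, 30, 6⟩, ⟨37, 4, 41, 4⟩, ⟨37, 5, 5, 3⟩, ⟨37, 6, 8, 2⟩, ⟨38, 2, 65, 5⟩,
   ⟨38, 3, 50, 6⟩, ⟨38, 4, 61, 4⟩, ⟨38, 5, 25, 3⟩, ⟨38, 6, 28, 2⟩, ⟨39, 2, 14, 5⟩,
   ⟨39, 4, 10, 4⟩, ⟨39, 5, 45, 3⟩, ⟨39, 6, 48, 2⟩, ⟨40, 2, 34, 5⟩, ⟨40, 3, 19, 6⟩,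
   ⟨40, 4, 30, 4⟩, ⟨40, 5, 65, 3⟩, ⟨40, 6, 68, 2⟩, ⟨41, 2, 54, 5⟩, ⟨41, 3, 39, 6⟩,
   ⟨41, 4, 50, 4⟩, ⟨41, 5, 14, 3⟩, ⟨41, 6, 17, 2⟩, ⟨42, 2, 3, 5⟩, ⟨42, 3, 59, 6⟩, ⟨42, 5, 34, 3⟩,
   ⟨42, 6, 37, 2⟩, ⟨43, 2, 23, 5⟩, ⟨43, 3, 8, 6⟩, ⟨43, 4, 19, 4⟩, ⟨43, 5, 54, 3⟩, ⟨43, 6, 57, 2⟩,
   ⟨44, 2, 43, 5⟩, ⟨44, 3, 28, 6⟩, ⟨44, 4, 39, 4⟩, ⟨44, 5, 3, 3⟩, ⟨44, 6, 6, 2⟩, ⟨45, 2, 63, 5⟩,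
   ⟨45, 3, 48, 6⟩, ⟨45, 4, 59, 4⟩, ⟨45, 5, 23, 3⟩, ⟨45, 6, 26, 2⟩, ⟨46, 2, 12, 5⟩, ⟨46, 4, 8, 4⟩,
   ⟨46, 5, 43, 3⟩, ⟨46, 6, 46, 2⟩, ⟨47, 2, 32, 5⟩, ⟨47, 3, 17, 6⟩, ⟨47, 4, 28, 4⟩,
   ⟨47, 5, 63, 3⟩, ⟨47, 6, 66, 2⟩, ⟨48, 2, 52, 5⟩, ⟨48, 3, 37, 6⟩, ⟨48, 4, 48, 4⟩,
   ⟨48, 5, 12, 3⟩, ⟨48, 6, 15, 2⟩, ⟨49, 2, 1, 5⟩, ⟨49, 3, 57, 6⟩, ⟨49, 5, 32, 3⟩, ⟨49, 6, 35, 2⟩,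
   ⟨50, 2, 21, 5⟩, ⟨50, 3, 6, 6⟩, ⟨50, 4, 17, 4⟩, ⟨50, 5, 52, 3⟩, ⟨50, 6, 55, 2⟩, ⟨51, 2, 41, 5⟩,
   ⟨51, 3, 26, 6⟩, ⟨51, 4, 37, 4⟩, ⟨51, 5, 1, 3⟩, ⟨51, 6, 4, 2⟩, ⟨52, 2, 61, 5⟩, ⟨52, 3, 46, 6⟩,
   ⟨52, 4, 57, 4⟩, ⟨52, 5, 21, 3⟩, ⟨52, 6, 24, 2⟩, ⟨53, 2, 10, 5⟩, ⟨53, 4, 6, 4⟩, ⟨53, 5, 41, 3⟩,
   ⟨53, 6, 44, 2⟩, ⟨54, 2, 30, 5⟩, ⟨54, 3, 15, 6⟩, ⟨54, 4, 26, 4⟩, ⟨54, 5, 61, 3⟩,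
   ⟨54, 6, 64, 2⟩, ⟨55, 2, 50, 5⟩, ⟨55, 3, 35, 6⟩, ⟨55, 4, 46, 4⟩, ⟨55, 5, 10, 3⟩,
   ⟨55, 6, 13, 2⟩, ⟨56, 3, 55, 6⟩, ⟨56, 4, 66, 4⟩, ⟨56, 5, 30, 3⟩, ⟨56, 6, 33, 2⟩,
   ⟨57, 2, 19, 5⟩, ⟨57, 3, 4, 6⟩, ⟨57, 4, 15, 4⟩, ⟨57, 5, 50, 3⟩, ⟨57, 6, 53, 2⟩, ⟨58, 2, 39, 5⟩,
   ⟨58, 3, 24, 6⟩, ⟨58, 4, 35, 4⟩, ⟨58, 6, 2, 2⟩, ⟨59, 2, 59, 5⟩, ⟨59, 3, 44, 6⟩, ⟨59, 4, 55, 4⟩,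
   ⟨59, 5, 19, 3⟩, ⟨59, 6, 22, 2⟩, ⟨60, 2, 8, 5⟩, ⟨60, 3, 64, 6⟩, ⟨60, 4, 4, 4⟩, ⟨60, 5, 39, 3⟩,
   ⟨60, 6, 42, 2⟩, ⟨61, 2, 28, 5⟩, ⟨61, 3, 13, 6⟩, ⟨61, 4, 24, 4⟩, ⟨61, 5, 59, 3⟩,
   ⟨61, 6, 62, 2⟩, ⟨62, 2, 48, 5⟩, ⟨62, 3, 33, 6⟩, ⟨62, 4, 44, 4⟩, ⟨62, 5, 8, 3⟩, ⟨62, 6, 11, 2⟩,
   ⟨63, 3, 53, 6⟩, ⟨63, 4, 64, 4⟩, ⟨63, 5, 28, 3⟩, ⟨63, 6, 31, 2⟩, ⟨64, 2, 17, 5⟩, ⟨64, 3, 2, 6⟩,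
   ⟨64, 4, 13, 4⟩, ⟨64, 5, 48, 3⟩, ⟨64, 6, 51, 2⟩, ⟨65, 2, 37, 5⟩, ⟨65, 3, 22, 6⟩,
   ⟨65, 4, 33, 4⟩, ⟨65, 5, 68, 3⟩, ⟨65, 6, 0, 2⟩, ⟨66, 2, 57, 5⟩, ⟨66, 3, 42, 6⟩, ⟨66, 4, 53, 4⟩,
   ⟨66, 5, 17, 3⟩, ⟨67, 2, 6, 5⟩, ⟨67, 3, 62, 6⟩, ⟨67, 4, 2, 4⟩, ⟨68, 2, 26, 5⟩, ⟨68, 3, 11, 6⟩,
   ⟨69, 2, 46, 5⟩]

private def rectEq (r s : Rect) : Bool :=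
  Nat.beq r.i s.i && (Nat.beq r.p s.p && (Nat.beq r.j s.j && Nat.beq r.q s.q))

private def listEq : List Rect → List Rect → Bool
  | [], [] => true
  | r :: l, s :: m => rectEq r s && listEq l m
  | _, _ => false

private theorem rectEq_sound {r s : Rect} (h : rectEq r s = true) : r = s := by
  unfold rectEq at h
  rw [Bool.and_eq_true, Bool.and_eq_true, Bool.and_eq_true] at h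
  obtain ⟨h1, h2, h3, h4⟩ := h
  cases r
  cases s
  have e1 := Nat.eq_of_beq_eq_true h1
  have e2 := Nat.eq_of_beq_eq_true h2
  have e3 := Nat.eq_of_beq_eq_true h3
  have e4 := Nat.eq_of_beq_eq_true h4
  simp only at e1 e2 e3 e4
  subst e1
  subst e2
  subst e3
  subst e4
  rfl

private theorem listEq_sound : ∀ (l m : List Rect), listEq l m = true → l = m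
  | [], [], _ => rfl
  | r :: l, s :: m, h => by
    unfold listEq at h
    rw [Bool.and_eq_true] at h
    rw [rectEq_sound h.1, listEq_sound l m h.2]
  | [], _ :: _, h => by simp [listEq] at h
  | _ :: _, [], h => by simp [listEq] at h

private theorem tileR_eq : tileR = tileL := by
  apply listEq_sound
  decide +kernel

private def fitsB (A B : ℕ) (r : Rect) : Bool :=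
  Nat.ble 2 r.p && (Nat.ble 2 r.q && (Nat.ble (r.i + r.p) A && Nat.ble (r.j + r.q) B))

private def relB (r s : Rect) : Bool :=
  (Nat.ble (r.i + r.p) s.i || (Nat.ble (s.i + s.p) r.i || (Nat.ble (r.j + r.q) s.j ||
    Nat.ble (s.j + s.q) r.j))) &&
  ((!(Nat.beq r.i s.i) || Nat.ble (r.p + 1) s.p) && (!(Nat.beq r.j s.j) || !(Nat.beq r.q s.q)))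

private def pairB : List Rect → Bool
  | [] => true
  | r :: l => l.all (relB r) && pairB l

private theorem beq_false {a b : ℕ} (h : (!(Nat.beq a b)) = true) : a ≠ b := by
  rintro rfl
  rw [Nat.beq_refl] at h
  exact absurd h (by decide)

private theorem fitsB_sound {A B : ℕ} {r : Rect} (h : fitsB A B r = true) : Fits A B r := by
  unfold fitsB at h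
  rw [Bool.and_eq_true, Bool.and_eq_true, Bool.and_eq_true] at h
  exact ⟨Nat.le_of_ble_eq_true h.1, Nat.le_of_ble_eq_true h.2.1, Nat.le_of_ble_eq_true h.2.2.1,
    Nat.le_of_ble_eq_true h.2.2.2⟩

private theorem relB_sound {r s : Rect} (h : relB r s = true) : Rel r s := by
  unfold relB at h
  rw [Bool.and_eq_true, Bool.and_eq_true, Bool.or_eq_true, Bool.or_eq_true, Bool.or_eq_true,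
    Bool.or_eq_true, Bool.or_eq_true] at h
  obtain ⟨h1, h2, h3⟩ := h
  refine ⟨?_, fun e => ?_, fun e => ?_⟩
  · rcases h1 with h1 | h1 | h1 | h1
    · exact Or.inl (Nat.le_of_ble_eq_true h1)
    · exact Or.inr (Or.inl (Nat.le_of_ble_eq_true h1))
    · exact Or.inr (Or.inr (Or.inl (Nat.le_of_ble_eq_true h1)))
    · exact Or.inr (Or.inr (Or.inr (Nat.le_of_ble_eq_true h1)))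
  · rcases h2 with h2 | h2
    · exact absurd e (beq_false h2)
    · exact Nat.le_of_ble_eq_true h2
  · rcases h3 with h3 | h3
    · exact absurd e (beq_false h3)
    · exact beq_false h3

private theorem pairB_sound : ∀ l : List Rect, pairB l = true → l.Pairwise Rel
  | [], _ => List.Pairwise.nil
  | r :: l, h => by
    unfold pairB at h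
    rw [Bool.and_eq_true, List.all_eq_true] at h
    exact List.Pairwise.cons (fun s hs => relB_sound (h.1 s hs)) (pairB_sound l h.2)

private theorem tileL_fits : tileL.all (fitsB 71 71) = true := by
  decide +kernel

private theorem tileL_pair : pairB tileL = true := by
  decide +kernel

private theorem tileL_length : tileL.length = 325 := by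
  decide +kernel

theorem tileR_length : tileR.length = 325 := by
  rw [tileR_eq]
  exact tileL_length

theorem tileR_good : GoodList 71 71 tileR := by
  rw [tileR_eq]
  refine ⟨fun r hr => ?_, pairB_sound _ tileL_pair⟩
  exact fitsB_sound (List.all_eq_true.1 tileL_fits r hr)

theorem tileR_mem : (⟨0, 2, 15, 5⟩ : Rect) ∈ tileR := by
  rw [tileR_eq]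
  exact List.mem_cons_self

end Pool.Agent.H94.NP
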