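import Pool.Agent.H94.NP.Acyc
import Pool.Agent.H94.NP.Base
import Pool.Agent.H94.NP.Block
import Pool.Agent.H94.NP.Count
import Pool.Agent.H94.NP.Tile
import Pool.Agent.H94.NP.Cone

namespace Pool.Agent.H94.NP

open Finset Pool.Agent.H12.Ball

theorem acyclic_inv (n : ℕ) (𝕜 : Type*) [Field 𝕜] : Inv n (Acyclic 𝕜) where
  exch := fun _ _ _ _ h hΔ => acyclic_of_exchange h hΔ
  cone := fun _ z hd hz => (void_cone hd z hz).acyclic hd

theorem fac_inv {A B : ℕ} {R : List Rect} (h : GoodList A B R) (hA : 1 ≤ A) (hB : 1 ≤ B)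
    {n : ℕ} (hn : A + B + 2 ≤ n) {P : Set (Finset (Fin n)) → Prop} (hP : Inv n P) :
    P (rs n (cl (fac A B R))) ∧ ∀ v : Fin n, P (link (rs n (cl (fac A B R))) {v}) := by
  have hc := rect_chain h hn
  constructor
  · rw [← inv_step1 hP (step1_of_step2 hc), fac_nil A B hA hB]
    apply path_inv hP hB (by omega)
    rintro s hs v hv ⟨h1, _⟩
    rcases hs with rfl | ⟨i, hi1, hi2, rfl⟩ <;>
    · simp only [Finset.mem_insert, Finset.mem_singleton] at hv
      omega
  · exact fun v => inv_step2 hP hc v (base_inv hP hA hB hn v)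

/-- For every `k ≥ 2` there is a `k`-fold acyclic ball of dimension `k + 1` whose face poset has
no partition into boolean intervals of rank at least `k`. -/
theorem main (k : ℕ) (hk : 2 ≤ k) :
    ∃ (n : ℕ) (Δ : Set (Finset (Fin n))), IsSimplicialBall (k + 1) Δ ∧
      (∀ (𝕜 : Type*) [Field 𝕜], KFoldAcyclic 𝕜 k Δ) ∧ ¬ ∃ D, IntervalPartition k Δ D := by
  obtain ⟨j, rfl⟩ : ∃ j, k = j + 2 := ⟨k - 2, by omega⟩
  have hg := tileR_good
  have hd : Down (cl (fac 71 71 tileR)) := cl_down _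
  have hlt : ∀ σ ∈ cl (fac 71 71 tileR), ∀ v ∈ σ, v < 144 := fun σ hσ => fac_lt hg hσ
  refine ⟨144 + j, rs (144 + j) (coneN 144 j (cl (fac 71 71 tileR))), ⟨⟨?_, ?_⟩, ?_⟩, ?_, ?_⟩
  · show (∅ : Finset (Fin (144 + j))).map _ \ _ ∈ cl _
    refine ⟨_, Or.inr ⟨⟨0, 2, 15, 5⟩, ?_, Or.inr (Or.inr rfl)⟩, ?_⟩
    · exact tileR_mem
    · simp
  · intro σ hσ τ hτ
    refine hd _ hσ _ ?_
    exact Finset.sdiff_subset_sdiff (Finset.map_subset_map.2 hτ) (Finset.Subset.refl _)
  · have h1 : Relation.ReflTransGen (Step1 144) (cl (fac 71 71 []))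
        (cl (fac 71 71 tileR)) := step1_of_step2 (rect_chain hg (by norm_num))
    have h2 : Relation.ReflTransGen (Step1 144) (cl (fac 71 71 [])) (cl {{0, 71, 72, 143}}) :=
      base_chain (by norm_num) (by norm_num) (by norm_num)
    have h3 := homeo_of_steps (h1.lift (coneN 144 j) fun _ _ h => cone_step1 (j := j) h)
    have h4 := homeo_of_steps (h2.lift (coneN 144 j) fun _ _ h => cone_step1 (j := j) h)
    have h5 := cone_simplex_ball (n := 144) (j := j) (T := {0, 71, 72, 143}) (by decide)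
      (by decide)
    obtain ⟨e3⟩ := h3
    obtain ⟨e4⟩ := h4
    obtain ⟨e5⟩ := h5
    exact ⟨(e3.symm.trans e4).trans e5⟩
  · intro 𝕜 _
    have h1 := fac_inv hg (by norm_num) (by norm_num) (n := 144 + j) (by omega)
      (acyclic_inv (144 + j) 𝕜)
    exact cone_kfold hd hlt h1.1 h1.2
  · rintro ⟨D, hD⟩
    obtain ⟨D', hD'⟩ := cone_part hd hlt hD
    exact counting hg (by rw [tileR_length]; norm_num) D' hD'

end Pool.Agent.H94.NP
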